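import Mathlib

set_option autoImplicit false

namespace Pool.Agent.Work.MP_c7798c_co

open Finset

/-- Independence of residues modulo coprime moduli. -/
lemma indep (R T : ℕ) (hR : 0 < R) (hT : 0 < T) (hRT : Nat.Coprime R T) (f g : ℕ → ℝ)
    (hf : ∀ m, f (m % R) = f m) (hg : ∀ m, g (m % T) = g m) :
    ∑ m ∈ range (R * T), f m * g m = (∑ m ∈ range R, f m) * (∑ m ∈ range T, g m) := by
  rw [sum_mul_sum, ← sum_product']
  refine sum_bij (fun m _ => (m % R, m % T)) ?_ ?_ ?_ ?_
  · intro m _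
    rw [mem_product, mem_range, mem_range]
    exact ⟨Nat.mod_lt _ hR, Nat.mod_lt _ hT⟩
  · intro a ha b hb hab
    rw [mem_range] at ha hb
    rw [Prod.mk.injEq] at hab
    have h1 : a ≡ b [MOD R * T] :=
      (Nat.modEq_and_modEq_iff_modEq_mul hRT).mp ⟨hab.1, hab.2⟩
    exact Nat.ModEq.eq_of_lt_of_lt h1 ha hb
  · rintro ⟨a, b⟩ hab
    rw [mem_product, mem_range, mem_range] at hab
    obtain ⟨k, hk1, hk2⟩ := Nat.chineseRemainder hRT a b
    refine ⟨k % (R * T), ?_, ?_⟩
    · rw [mem_range]; exact Nat.mod_lt _ (Nat.mul_pos hR hT)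
    · rw [Prod.mk.injEq]
      constructor
      · rw [Nat.mod_mul_right_mod]
        rw [hk1, Nat.mod_eq_of_lt hab.1]
      · rw [Nat.mod_mul_left_mod]
        rw [hk2, Nat.mod_eq_of_lt hab.2]
  · intro m _
    simp only [hf, hg]

/-- Upper bound (Legendre/Mertens): sum of `log p / p` over primes `p ≤ n`. -/
lemma sum_log_div_le (n : ℕ) (hn : 1 ≤ n) :
    ∑ p ∈ (Ioc 0 n).filter Nat.Prime, Real.log p / p ≤ 2 * Real.log n := by
  have hnpos : (0 : ℝ) < n := by exact_mod_cast hn
  -- double counting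
  have h1 : ∑ m ∈ Ioc 0 n, ∑ p ∈ (Ioc 0 n).filter Nat.Prime,
      (if p ∣ m then Real.log p else 0) ≤ n * Real.log n := by
    calc ∑ m ∈ Ioc 0 n, ∑ p ∈ (Ioc 0 n).filter Nat.Prime, (if p ∣ m then Real.log p else 0)
        ≤ ∑ m ∈ Ioc 0 n, Real.log n := by
          apply sum_le_sum
          intro m hm
          rw [mem_Ioc] at hm
          have h2 : ∑ p ∈ (Ioc 0 n).filter Nat.Prime, (if p ∣ m then Real.log p else 0) =
              ∑ p ∈ m.primeFactors, Real.log p := by
            rw [← sum_filter, filter_filter]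
            apply sum_congr _ (fun _ _ => rfl)
            ext p
            rw [mem_filter, mem_Ioc, Nat.mem_primeFactors]
            constructor
            · rintro ⟨_, hp, hd⟩
              exact ⟨hp, hd, by omega⟩
            · rintro ⟨hp, hd, _⟩
              have := Nat.le_of_dvd (by omega) hd
              exact ⟨⟨hp.pos, by omega⟩, hp, hd⟩
          rw [h2, ← Real.log_prod (fun p hp => by
            have := (Nat.prime_of_mem_primeFactors hp).pos
            positivity)]
          have h3 : ∏ p ∈ m.primeFactors, (p : ℝ) ≤ n := by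
            have h4 : ∏ p ∈ m.primeFactors, p ≤ m :=
              Nat.le_of_dvd (by omega) (Nat.prod_primeFactors_dvd m)
            have h5 : ∏ p ∈ m.primeFactors, p ≤ n := by omega
            have h6 : ((∏ p ∈ m.primeFactors, p : ℕ) : ℝ) ≤ n := by exact_mod_cast h5
            rwa [Nat.cast_prod] at h6
          apply Real.log_le_log _ h3
          apply prod_pos
          intro p hp
          have := (Nat.prime_of_mem_primeFactors hp).pos
          positivity
      _ = n * Real.log n := by simp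
  rw [sum_comm] at h1
  have h2 : ∀ p ∈ (Ioc 0 n).filter Nat.Prime,
      (n / 2 : ℝ) * (Real.log p / p) ≤ ∑ m ∈ Ioc 0 n, (if p ∣ m then Real.log p else 0) := by
    intro p hp
    rw [mem_filter, mem_Ioc] at hp
    obtain ⟨⟨hp0, hpn⟩, hpp⟩ := hp
    rw [← sum_filter, sum_const, Nat.Ioc_filter_dvd_card_eq_div, nsmul_eq_mul]
    have hlog : 0 ≤ Real.log p := Real.log_natCast_nonneg p
    have hppos : (0 : ℝ) < p := by exact_mod_cast hp0
    have h3 : (n : ℝ) / 2 / p ≤ ((n / p : ℕ) : ℝ) := by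
      rw [div_le_iff₀ hppos, div_le_iff₀ (by norm_num : (0:ℝ) < 2)]
      have h4 : 1 ≤ n / p := Nat.one_le_div_iff hp0 |>.mpr hpn
      have h5 : n < (n / p + 1) * p := by
        have := Nat.lt_succ_iff.mpr (le_refl (n / p))
        exact (Nat.div_lt_iff_lt_mul hp0).mp this
      have h6 : n ≤ (n / p) * p * 2 := by nlinarith
      exact_mod_cast h6
    calc (n / 2 : ℝ) * (Real.log p / p) = (n / 2 / p) * Real.log p := by ring
      _ ≤ ((n / p : ℕ) : ℝ) * Real.log p := mul_le_mul_of_nonneg_right h3 hlog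
  have h3 := sum_le_sum h2
  rw [← mul_sum] at h3
  have h4 : (n / 2 : ℝ) * ∑ p ∈ (Ioc 0 n).filter Nat.Prime, Real.log p / p ≤ n * Real.log n :=
    h3.trans h1
  have h5 : (n / 2 : ℝ) * ∑ p ∈ (Ioc 0 n).filter Nat.Prime, Real.log p / p ≤
      (n / 2) * (2 * Real.log n) := by linarith
  exact le_of_mul_le_mul_left h5 (by positivity)

/-- Primes in `(a, b]`. -/
def PP (a b : ℕ) : Finset ℕ := (Ioc a b).filter Nat.Prime

/-- Product of the primes in `(a, b]`. -/
def Q (a b : ℕ) : ℕ := ∏ p ∈ PP a b, p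

lemma mem_PP {a b p : ℕ} : p ∈ PP a b ↔ (a < p ∧ p ≤ b) ∧ p.Prime := by
  unfold PP; rw [mem_filter, mem_Ioc]

lemma Q_pos (a b : ℕ) : 0 < Q a b := by
  apply prod_pos
  intro p hp
  exact (mem_PP.mp hp).2.pos

lemma prime_dvd_Q {a b p : ℕ} (hp : p.Prime) : p ∣ Q a b ↔ a < p ∧ p ≤ b := by
  unfold Q
  rw [hp.prime.dvd_finsetProd_iff]
  constructor
  · rintro ⟨q, hq, hpq⟩
    have h := mem_PP.mp hq
    have : p = q := (Nat.prime_dvd_prime_iff_eq hp h.2).mp hpq
    rw [this]; exact h.1
  · intro h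
    exact ⟨p, mem_PP.mpr ⟨h, hp⟩, dvd_rfl⟩

lemma Q_mul {a b c : ℕ} (hab : a ≤ b) (hbc : b ≤ c) : Q a b * Q b c = Q a c := by
  unfold Q
  rw [← prod_union]
  · apply prod_congr _ (fun _ _ => rfl)
    ext p
    rw [mem_union, mem_PP, mem_PP, mem_PP]
    constructor
    · rintro (⟨h, hp⟩ | ⟨h, hp⟩)
      · exact ⟨by omega, hp⟩
      · exact ⟨by omega, hp⟩
    · rintro ⟨h, hp⟩
      by_cases h2 : p ≤ b
      · left; exact ⟨⟨h.1, h2⟩, hp⟩
      · right; exact ⟨by omega, hp⟩
  · rw [disjoint_left]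
    intro p hp hp'
    have := mem_PP.mp hp
    have := mem_PP.mp hp'
    omega

lemma Q_coprime {a b c d : ℕ} (hbc : b ≤ c) : Nat.Coprime (Q a b) (Q c d) := by
  rw [Nat.coprime_iff_gcd_eq_one]
  by_contra h
  obtain ⟨p, hp, hpd⟩ := Nat.exists_prime_and_dvd h
  have h1 := (prime_dvd_Q hp).mp (hpd.trans (Nat.gcd_dvd_left _ _))
  have h2 := (prime_dvd_Q hp).mp (hpd.trans (Nat.gcd_dvd_right _ _))
  omega

lemma totient_Q (a b : ℕ) :
    ((Q a b).totient : ℝ) = Q a b * ∏ p ∈ PP a b, (1 - (p : ℝ)⁻¹) := by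
  have h := Nat.totient_eq_mul_prod_factors (Q a b)
  have h2 : (Q a b).primeFactors = PP a b :=
    Nat.primeFactors_prod (fun p hp => (mem_PP.mp hp).2)
  rw [h2] at h
  have h3 : (((Q a b).totient : ℚ) : ℝ) = ((Q a b * ∏ p ∈ PP a b, (1 - (p : ℚ)⁻¹) : ℚ) : ℝ) := by
    rw [h]
  push_cast at h3
  exact h3

lemma sum_inv_le (v : ℕ) (hv : 2 ≤ v) : ∑ p ∈ PP v (v ^ 16), (p : ℝ)⁻¹ ≤ 32 := by
  have hlogv : 0 < Real.log v := Real.log_pos (by exact_mod_cast hv)
  have h1 : ∑ p ∈ PP v (v ^ 16), (p : ℝ)⁻¹ ≤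
      ∑ p ∈ PP v (v ^ 16), (Real.log p / p) / Real.log v := by
    apply sum_le_sum
    intro p hp
    obtain ⟨⟨h1, h2⟩, hpp⟩ := mem_PP.mp hp
    have hppos : (0 : ℝ) < p := by exact_mod_cast hpp.pos
    have hle : Real.log v ≤ Real.log p :=
      Real.log_le_log (by positivity) (by exact_mod_cast h1.le)
    rw [le_div_iff₀ hlogv, inv_mul_eq_div]
    exact div_le_div_of_nonneg_right hle hppos.le
  have h2 : ∑ p ∈ PP v (v ^ 16), (Real.log p / p) / Real.log v ≤
      (∑ p ∈ (Ioc 0 (v ^ 16)).filter Nat.Prime, Real.log p / p) / Real.log v := by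
    rw [← sum_div]
    apply div_le_div_of_nonneg_right _ hlogv.le
    apply sum_le_sum_of_subset_of_nonneg
    · intro p hp
      obtain ⟨⟨h1, h2⟩, hpp⟩ := mem_PP.mp hp
      rw [mem_filter, mem_Ioc]
      exact ⟨⟨by omega, h2⟩, hpp⟩
    · intro p _ _
      exact div_nonneg (Real.log_natCast_nonneg p) (Nat.cast_nonneg p)
  have h3 := sum_log_div_le (v ^ 16) (Nat.one_le_pow _ _ (by omega))
  have h4 : Real.log ((v ^ 16 : ℕ) : ℝ) = 16 * Real.log v := by
    push_cast
    rw [Real.log_pow]; norm_num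
  rw [h4] at h3
  have h5 : (∑ p ∈ (Ioc 0 (v ^ 16)).filter Nat.Prime, Real.log p / p) / Real.log v ≤ 32 := by
    rw [div_le_iff₀ hlogv]; linarith
  linarith

lemma one_sub_ge_exp (x : ℝ) (h0 : 0 ≤ x) (h1 : x ≤ 1 / 2) : Real.exp (-(2 * x)) ≤ 1 - x := by
  have hpos : 0 < 1 - x := by linarith
  have h2 := Real.one_sub_inv_le_log_of_pos hpos
  have h3 : -(2 * x) ≤ 1 - (1 - x)⁻¹ := by
    have h4 : (1 - x)⁻¹ ≤ 1 + 2 * x := by
      rw [inv_le_comm₀ hpos (by linarith)]
      rw [inv_eq_one_div, div_le_iff₀ (by linarith)]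
      nlinarith
    linarith
  calc Real.exp (-(2 * x)) ≤ Real.exp (Real.log (1 - x)) := Real.exp_le_exp.mpr (h3.trans h2)
    _ = 1 - x := Real.exp_log hpos

/-- lower bound for the product over `(v, v^16]` -/
lemma prod_ge (v : ℕ) (hv : 2 ≤ v) :
    Real.exp (-64) ≤ ∏ p ∈ PP v (v ^ 16), (1 - (p : ℝ)⁻¹) := by
  have h1 : ∀ p ∈ PP v (v ^ 16), Real.exp (-(2 * (p : ℝ)⁻¹)) ≤ 1 - (p : ℝ)⁻¹ := by
    intro p hp
    obtain ⟨⟨h1, h2⟩, hpp⟩ := mem_PP.mp hp
    have hp2 : (2 : ℝ) ≤ p := by exact_mod_cast hpp.two_le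
    apply one_sub_ge_exp
    · positivity
    · rw [inv_eq_one_div]
      exact one_div_le_one_div_of_le (by norm_num) hp2
  calc Real.exp (-64) ≤ Real.exp (∑ p ∈ PP v (v ^ 16), -(2 * (p : ℝ)⁻¹)) := by
        apply Real.exp_le_exp.mpr
        rw [sum_neg_distrib, ← mul_sum]
        have := sum_inv_le v hv
        linarith
    _ = ∏ p ∈ PP v (v ^ 16), Real.exp (-(2 * (p : ℝ)⁻¹)) := Real.exp_sum _ _
    _ ≤ _ := by
        apply prod_le_prod
        · intro p _
          positivity
        · exact h1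

/-- The product over primes tends to zero. -/
lemma prod_small (w : ℕ) (δ : ℝ) (hδ : 0 < δ) :
    ∃ z0 : ℕ, ∀ z, z0 ≤ z → ∏ p ∈ PP w z, (1 - (p : ℝ)⁻¹) ≤ δ := by
  have hns := not_summable_one_div_on_primes
  rw [not_summable_iff_tendsto_nat_atTop_of_nonneg] at hns
  · rw [Filter.tendsto_atTop_atTop] at hns
    obtain ⟨N, hN⟩ := hns (-Real.log δ + (w + 1))
    refine ⟨N, fun z hz => ?_⟩
    have h1 := hN (z + 1) (by omega)
    have h2 : ∑ i ∈ range (z + 1), ({p | Nat.Prime p}.indicator (fun n : ℕ => (1 : ℝ) / n) i) ≤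
        (w + 1) + ∑ p ∈ PP w z, (p : ℝ)⁻¹ := by
      have h3 : range (z + 1) ⊆ range (w + 1) ∪ Ioc w z := by
        intro i hi
        rw [mem_union, mem_range, mem_Ioc]
        rw [mem_range] at hi
        omega
      have hnn : ∀ i : ℕ, 0 ≤ ({p | Nat.Prime p}.indicator (fun n : ℕ => (1 : ℝ) / n) i) := by
        intro i
        apply Set.indicator_nonneg
        intro x _
        positivity
      calc ∑ i ∈ range (z + 1), ({p | Nat.Prime p}.indicator (fun n : ℕ => (1 : ℝ) / n) i)
          ≤ ∑ i ∈ range (w + 1) ∪ Ioc w z,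
            ({p | Nat.Prime p}.indicator (fun n : ℕ => (1 : ℝ) / n) i) :=
            sum_le_sum_of_subset_of_nonneg h3 (fun i _ _ => hnn i)
        _ ≤ ∑ i ∈ range (w + 1), ({p | Nat.Prime p}.indicator (fun n : ℕ => (1 : ℝ) / n) i) +
            ∑ i ∈ Ioc w z, ({p | Nat.Prime p}.indicator (fun n : ℕ => (1 : ℝ) / n) i) := by
            rw [← sum_union_inter]
            have := sum_nonneg (fun i (_ : i ∈ range (w + 1) ∩ Ioc w z) => hnn i)
            linarith
        _ ≤ (w + 1) + ∑ p ∈ PP w z, (p : ℝ)⁻¹ := by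
            apply add_le_add
            · calc ∑ i ∈ range (w + 1), ({p | Nat.Prime p}.indicator (fun n : ℕ => (1 : ℝ) / n) i)
                  ≤ ∑ i ∈ range (w + 1), (1 : ℝ) := by
                    apply sum_le_sum
                    intro i _
                    by_cases hi : Nat.Prime i
                    · rw [Set.indicator_of_mem (by exact hi)]
                      have : (1 : ℝ) ≤ i := by exact_mod_cast hi.pos
                      rw [div_le_one (by linarith)]
                      exact this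
                    · rw [Set.indicator_of_notMem (by exact hi)]
                      norm_num
                _ = w + 1 := by simp
            · unfold PP
              rw [sum_filter]
              apply le_of_eq
              apply sum_congr rfl
              intro i _
              by_cases hi : Nat.Prime i
              · rw [Set.indicator_of_mem (by exact hi), if_pos hi, one_div]
              · rw [Set.indicator_of_notMem (by exact hi), if_neg hi]
    have h4 : -Real.log δ ≤ ∑ p ∈ PP w z, (p : ℝ)⁻¹ := by linarith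
    calc ∏ p ∈ PP w z, (1 - (p : ℝ)⁻¹) ≤ ∏ p ∈ PP w z, Real.exp (-(p : ℝ)⁻¹) := by
          apply prod_le_prod
          · intro p hp
            have hpp := (mem_PP.mp hp).2
            have hp1 : (1 : ℝ) ≤ p := by exact_mod_cast hpp.pos
            have := inv_le_one_of_one_le₀ hp1
            linarith
          · intro p _
            have := Real.add_one_le_exp (-(p : ℝ)⁻¹)
            linarith
      _ = Real.exp (-∑ p ∈ PP w z, (p : ℝ)⁻¹) := by
          rw [← Real.exp_sum, sum_neg_distrib]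
      _ ≤ Real.exp (Real.log δ) := Real.exp_le_exp.mpr (by linarith)
      _ = δ := Real.exp_log hδ
  · intro n
    apply Set.indicator_nonneg
    intro x _
    positivity

/-- `gcd(Q, m)` divides the product of the primes of `Q` dividing `m`. -/
lemma log_gcd_le (a b m : ℕ) :
    Real.log (Nat.gcd (Q a b) m) ≤ ∑ p ∈ PP a b, (if p ∣ m then Real.log p else 0) := by
  have h1 : Nat.gcd (Q a b) m ≤ ∏ p ∈ (PP a b).filter (fun p => p ∣ m), p := by
    apply Nat.le_of_dvd
    · apply prod_pos
      intro p hp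
      exact (mem_PP.mp (mem_filter.mp hp).1).2.pos
    · have h2 : Q a b = (∏ p ∈ (PP a b).filter (fun p => p ∣ m), p) *
          ∏ p ∈ (PP a b).filter (fun p => ¬ p ∣ m), p := by
        unfold Q
        rw [prod_filter_mul_prod_filter_not]
      have h3 : Nat.Coprime (Nat.gcd (Q a b) m) (∏ p ∈ (PP a b).filter (fun p => ¬ p ∣ m), p) := by
        apply Nat.Coprime.prod_right
        intro p hp
        rw [mem_filter] at hp
        have hpp := (mem_PP.mp hp.1).2
        rw [Nat.coprime_comm, hpp.coprime_iff_not_dvd]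
        intro hd
        exact hp.2 (hd.trans (Nat.gcd_dvd_right _ _))
      have h4 : Nat.gcd (Q a b) m ∣ (∏ p ∈ (PP a b).filter (fun p => p ∣ m), p) *
          ∏ p ∈ (PP a b).filter (fun p => ¬ p ∣ m), p := by
        rw [← h2]; exact Nat.gcd_dvd_left _ _
      exact h3.dvd_of_dvd_mul_right h4
  have hpos : 0 < Nat.gcd (Q a b) m := Nat.gcd_pos_of_pos_left _ (Q_pos a b)
  rw [← sum_filter, ← Real.log_prod (fun p hp => by
    have := (mem_PP.mp (mem_filter.mp hp).1).2.pos
    positivity)]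
  apply Real.log_le_log (by exact_mod_cast hpos)
  have h6 : ((Nat.gcd (Q a b) m : ℕ) : ℝ) ≤
    ((∏ p ∈ (PP a b).filter (fun p => p ∣ m), p : ℕ) : ℝ) := by exact_mod_cast h1
  rwa [Nat.cast_prod] at h6

/-- Number of multiples of `d` in `range T`, when `d ∣ T`. -/
lemma card_multiples_range (T d : ℕ) (hd : d ∣ T) (hdpos : 0 < d) :
    ((range T).filter (fun m => d ∣ m)).card = T / d := by
  obtain ⟨e, rfl⟩ := hd
  rw [Nat.mul_div_cancel_left _ hdpos]
  have : (range (d * e)).filter (fun m => d ∣ m) = (range e).image (fun i => d * i) := by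
    ext m
    rw [mem_filter, mem_image, mem_range]
    constructor
    · rintro ⟨hm, i, rfl⟩
      refine ⟨i, ?_, rfl⟩
      rw [mem_range]
      exact Nat.lt_of_mul_lt_mul_left hm
    · rintro ⟨i, hi, rfl⟩
      rw [mem_range] at hi
      exact ⟨Nat.mul_lt_mul_of_pos_left hi hdpos, dvd_mul_right _ _⟩
  rw [this, card_image_of_injective, card_range]
  intro i j hij
  exact Nat.eq_of_mul_eq_mul_left hdpos hij

/-- Markov: at most half of the residues modulo `Q y v` have `gcd > v^8`. -/
lemma half_small (y v : ℕ) (hv : 2 ≤ v) :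
    ((((range (Q y v)).filter (fun m => v ^ 8 < Nat.gcd (Q y v) m)).card : ℕ) : ℝ) ≤
      (Q y v : ℝ) / 2 := by
  have hlogv : 0 < Real.log v := Real.log_pos (by exact_mod_cast hv)
  have hQ : 0 < Q y v := Q_pos y v
  have h1 : ∑ m ∈ range (Q y v), Real.log (Nat.gcd (Q y v) m) ≤ Q y v * (2 * Real.log v) := by
    calc ∑ m ∈ range (Q y v), Real.log (Nat.gcd (Q y v) m)
        ≤ ∑ m ∈ range (Q y v), ∑ p ∈ PP y v, (if p ∣ m then Real.log p else 0) :=
          sum_le_sum (fun m _ => log_gcd_le y v m)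
      _ = ∑ p ∈ PP y v, (Q y v : ℝ) * (Real.log p / p) := by
          rw [sum_comm]
          apply sum_congr rfl
          intro p hp
          have hpp := (mem_PP.mp hp).2
          have hpd : p ∣ Q y v := (prime_dvd_Q hpp).mpr (mem_PP.mp hp).1
          rw [← sum_filter, sum_const, card_multiples_range _ _ hpd hpp.pos, nsmul_eq_mul,
            Nat.cast_div hpd (by exact_mod_cast hpp.pos.ne')]
          ring
      _ = Q y v * ∑ p ∈ PP y v, Real.log p / p := by rw [mul_sum]
      _ ≤ Q y v * ∑ p ∈ (Ioc 0 v).filter Nat.Prime, Real.log p / p := by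
          apply mul_le_mul_of_nonneg_left _ (Nat.cast_nonneg _)
          apply sum_le_sum_of_subset_of_nonneg
          · intro p hp
            obtain ⟨⟨h1, h2⟩, hpp⟩ := mem_PP.mp hp
            rw [mem_filter, mem_Ioc]
            exact ⟨⟨by omega, h2⟩, hpp⟩
          · intro p _ _
            exact div_nonneg (Real.log_natCast_nonneg p) (Nat.cast_nonneg p)
      _ ≤ Q y v * (2 * Real.log v) := by
          apply mul_le_mul_of_nonneg_left _ (Nat.cast_nonneg _)
          exact sum_log_div_le v (by omega)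
  have h2 : (((range (Q y v)).filter (fun m => v ^ 8 < Nat.gcd (Q y v) m)).card : ℝ) *
      (8 * Real.log v) ≤ ∑ m ∈ range (Q y v), Real.log (Nat.gcd (Q y v) m) := by
    calc (((range (Q y v)).filter (fun m => v ^ 8 < Nat.gcd (Q y v) m)).card : ℝ) *
      (8 * Real.log v) = ∑ m ∈ (range (Q y v)).filter (fun m => v ^ 8 < Nat.gcd (Q y v) m),
        (8 * Real.log v) := by rw [sum_const, nsmul_eq_mul]
      _ ≤ ∑ m ∈ (range (Q y v)).filter (fun m => v ^ 8 < Nat.gcd (Q y v) m),
        Real.log (Nat.gcd (Q y v) m) := by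
          apply sum_le_sum
          intro m hm
          rw [mem_filter] at hm
          have h3 : (8 : ℝ) * Real.log v = Real.log ((v : ℝ) ^ 8) := by
            rw [Real.log_pow]; norm_num
          rw [h3]
          apply Real.log_le_log
          · positivity
          · exact_mod_cast hm.2.le
      _ ≤ _ := by
          apply sum_le_sum_of_subset_of_nonneg (filter_subset _ _)
          intro m _ _
          exact Real.log_natCast_nonneg _
  have h3 : (((range (Q y v)).filter (fun m => v ^ 8 < Nat.gcd (Q y v) m)).card : ℝ) *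
      (8 * Real.log v) ≤ (Q y v : ℝ) / 4 * (8 * Real.log v) := by
    refine (h2.trans h1).trans (le_of_eq ?_)
    ring
  have h4 := le_of_mul_le_mul_right h3 (by positivity)
  have h5 : (0 : ℝ) ≤ Q y v := Nat.cast_nonneg _
  linarith

end Pool.Agent.Work.MP_c7798c_co
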