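import Pool.Agent.Work.MP_c7798c_co.Final

set_option autoImplicit false

namespace Pool.Agent.Work.MP_c7798c_co

open Finset

/-- The existence of the sequence of scales. -/
lemma exists_scales (y0 W : ℕ) (L : ℕ → ℕ) :
    ∃ z x : ℕ → ℕ, z 0 = y0 ∧ (∀ k, z k ≤ z (k + 1)) ∧ (∀ k, L (z k) * x k ≤ z (k + 1)) ∧
      (∀ k, cst * (Q (z k) (z (k + 1)) : ℝ) ≤
        (((range (Q (z k) (z (k + 1)))).filter
          (fun m => W * z k < Nat.gcd (Q (z k) (z (k + 1))) m ∧
            Nat.gcd (Q (z k) (z (k + 1))) m ≤ x k)).card : ℝ)) := by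
  have h : ∀ y : ℕ, ∃ zx : ℕ × ℕ, y ≤ zx.1 ∧ L y * zx.2 ≤ zx.1 ∧
      cst * (Q y zx.1 : ℝ) ≤
        (((range (Q y zx.1)).filter
          (fun m => W * y < Nat.gcd (Q y zx.1) m ∧ Nat.gcd (Q y zx.1) m ≤ zx.2)).card : ℝ) := by
    intro y
    obtain ⟨z, x, h1, _, h3, h4⟩ := scale y (W * y) (L y)
    exact ⟨(z, x), h1, h3, h4⟩
  choose step hs1 hs2 hs3 using h
  let z : ℕ → ℕ := fun k => Nat.rec y0 (fun _ prev => (step prev).1) k
  have hz : ∀ k, z (k + 1) = (step (z k)).1 := fun k => rfl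
  refine ⟨z, fun k => (step (z k)).2, rfl, ?_, ?_, ?_⟩
  · intro k; rw [hz]; exact hs1 _
  · intro k; rw [hz]; exact hs2 _
  · intro k; rw [hz]; exact hs3 _

/-- Average of the product of the scale functions. -/
lemma avg_bound (z x : ℕ → ℕ) (W K T' : ℕ) (hz : ∀ k, z k ≤ z (k + 1)) (hT' : 0 < T')
    (hcop : Nat.Coprime (Q (z 0) (z K)) T')
    (hc : ∀ k, cst * (Q (z k) (z (k + 1)) : ℝ) ≤
        (((range (Q (z k) (z (k + 1)))).filter
          (fun m => W * z k < Nat.gcd (Q (z k) (z (k + 1))) m ∧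
            Nat.gcd (Q (z k) (z (k + 1))) m ≤ x k)).card : ℝ)) :
    ∑ m ∈ range (Q (z 0) (z K) * T'), ∏ k ∈ range K,
      (if (W * z k < Nat.gcd (Q (z k) (z (k + 1))) m ∧
            Nat.gcd (Q (z k) (z (k + 1))) m ≤ x k) then (1 / 2 : ℝ) else 1) ≤
      ((Q (z 0) (z K) * T' : ℕ) : ℝ) * (1 - cst / 2) ^ K := by
  set g : ℕ → ℕ → ℝ := fun k m => if (W * z k < Nat.gcd (Q (z k) (z (k + 1))) m ∧
            Nat.gcd (Q (z k) (z (k + 1))) m ≤ x k) then (1 / 2 : ℝ) else 1 with hg
  have hper : ∀ k m, g k (m % Q (z k) (z (k + 1))) = g k m := by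
    intro k m
    simp only [hg, gcd_mod_right']
  have hmono : Monotone z := monotone_nat_of_le_succ hz
  have hperR : ∀ m, (fun m => ∏ k ∈ range K, g k m) (m % Q (z 0) (z K)) =
      (fun m => ∏ k ∈ range K, g k m) m := by
    intro m
    apply prod_congr rfl
    intro k hk
    rw [mem_range] at hk
    have hd : Q (z k) (z (k + 1)) ∣ Q (z 0) (z K) := by
      have h1 : Q (z 0) (z k) * Q (z k) (z (k + 1)) = Q (z 0) (z (k + 1)) :=
        Q_mul (hmono (Nat.zero_le _)) (hz k)
      have h2 : Q (z 0) (z (k + 1)) * Q (z (k + 1)) (z K) = Q (z 0) (z K) :=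
        Q_mul (hmono (Nat.zero_le _)) (hmono hk)
      rw [← h2, ← h1]
      exact Dvd.dvd.mul_right (dvd_mul_left _ _) _
    rw [← hper k (m % Q (z 0) (z K)), Nat.mod_mod_of_dvd _ hd, hper k m]
  have h1 := indep (Q (z 0) (z K)) T' (Q_pos _ _) hT' hcop
    (fun m => ∏ k ∈ range K, g k m) (fun _ => (1 : ℝ)) hperR (fun _ => rfl)
  simp only [mul_one] at h1
  have h2 : ∑ m ∈ range (Q (z 0) (z K) * T'), ∏ k ∈ range K, g k m =
      (∏ k ∈ range K, ∑ m ∈ range (Q (z k) (z (k + 1))), g k m) * T' := by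
    rw [h1, prod_indep z hz g hper K]
    simp
  have h3 : ∀ k ∈ range K, ∑ m ∈ range (Q (z k) (z (k + 1))), g k m ≤
      (Q (z k) (z (k + 1)) : ℝ) * (1 - cst / 2) := by
    intro k _
    have h4 : ∀ m, g k m = 1 - (1 / 2) * (if (W * z k < Nat.gcd (Q (z k) (z (k + 1))) m ∧
            Nat.gcd (Q (z k) (z (k + 1))) m ≤ x k) then (1 : ℝ) else 0) := by
      intro m
      simp only [hg]
      split_ifs <;> norm_num
    simp only [h4]
    rw [sum_sub_distrib, ← mul_sum, ← card_filter_eq_sum, sum_const, card_range, nsmul_eq_mul,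
      mul_one]
    have := hc k
    linarith
  have h4 : ∏ k ∈ range K, ∑ m ∈ range (Q (z k) (z (k + 1))), g k m ≤
      ∏ k ∈ range K, ((Q (z k) (z (k + 1)) : ℝ) * (1 - cst / 2)) := by
    apply prod_le_prod
    · intro k _
      apply sum_nonneg
      intro m _
      simp only [hg]
      split_ifs <;> norm_num
    · exact h3
  have h5 : ∏ k ∈ range K, (Q (z k) (z (k + 1)) : ℝ) = (Q (z 0) (z K) : ℝ) := by
    have h6 := prod_indep z hz (fun _ _ => (1 : ℝ)) (fun _ _ => rfl) K
    simp at h6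
    exact h6.symm
  have h6 : ∑ m ∈ range (Q (z 0) (z K) * T'), ∏ k ∈ range K, g k m ≤
      (∏ k ∈ range K, ((Q (z k) (z (k + 1)) : ℝ) * (1 - cst / 2))) * T' := by
    rw [h2]
    exact mul_le_mul_of_nonneg_right h4 (Nat.cast_nonneg _)
  refine h6.trans (le_of_eq ?_)
  rw [prod_mul_distrib, h5, prod_const, card_range]
  push_cast
  ring

/-- Main theorem: no `ε > 0` works. -/
theorem main (ε : ℝ) (hε : 0 < ε) (N : ℕ) :
    ∃ n : ℕ, N ≤ n ∧ ∀ W : Finset ℕ → Prop, W ∅ → ¬ IsWin n (ε * n) W := by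
  classical
  have hc0 := cst_pos
  have hc1 := cst_le
  obtain ⟨K, hK⟩ := exists_pow_lt_of_lt_one (show (0:ℝ) < ε / 8 by positivity)
    (show 1 - cst / 2 < 1 by linarith)
  obtain ⟨A, hA⟩ := exists_nat_gt (8 / ε)
  obtain ⟨y0, hy0⟩ := exists_nat_gt (8 / ε)
  have hApos : (0 : ℝ) < A := lt_trans (by positivity) hA
  have hy0pos : (0 : ℝ) < y0 := lt_trans (by positivity) hy0
  have hA' : 1 / (A : ℝ) ≤ ε / 8 := by
    rw [div_le_iff₀ hApos]
    rw [div_lt_iff₀ hε] at hA
    linarith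
  have hy0' : 1 / (y0 : ℝ) ≤ ε / 8 := by
    rw [div_le_iff₀ hy0pos]
    rw [div_lt_iff₀ hε] at hy0
    linarith
  obtain ⟨E0, hE0⟩ := exists_pow_lt_of_lt_one (show (0:ℝ) < ε / 8 / y0 by positivity)
    (show (1 / 2 : ℝ) < 1 by norm_num)
  have hE0' : (y0 : ℝ) / 2 ^ E0 ≤ ε / 8 := by
    rw [lt_div_iff₀ hy0pos] at hE0
    have : (y0 : ℝ) / 2 ^ E0 = (1 / 2) ^ E0 * y0 := by
      rw [one_div, inv_pow]; field_simp
    linarith
  obtain ⟨W0, hW0⟩ := exists_nat_gt ((2 * K + K ^ 2) * 8 / ε)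
  have hW0pos : (0 : ℝ) < W0 := lt_of_le_of_lt (by positivity) hW0
  have hW0' : (2 * K + K ^ 2) / (W0 : ℝ) ≤ ε / 8 := by
    rw [div_le_iff₀ hW0pos]
    rw [div_lt_iff₀ hε] at hW0
    linarith
  have hW0nat : 0 < W0 := by exact_mod_cast hW0pos
  have hy0nat : 0 < y0 := by exact_mod_cast hy0pos
  obtain ⟨z, x, hz0, hz, hL, hcount⟩ := exists_scales y0 W0
    (fun y => A * ((y0.factorial) ^ E0 * Q y0 y))
  have hmono : Monotone z := monotone_nat_of_le_succ hz
  have hzpos : ∀ k, 0 < z k := by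
    intro k
    have := hmono (Nat.zero_le k)
    omega
  set R := Q (z 0) (z K) with hR
  have hRpos : 0 < R := Q_pos _ _
  obtain ⟨s, hs⟩ := exists_nat_gt ((2 + K * (z K : ℝ)) * 8 / ε)
  set T' := R * (N + 2 * z K + s + 2) + 1 with hT'
  have hT'pos : 0 < T' := Nat.succ_pos _
  have hcop : Nat.Coprime R T' := by
    rw [hT', Nat.coprime_mul_left_add_right]
    exact Nat.coprime_one_right R
  set n := R * T' with hn
  have hnT : T' ≤ n := Nat.le_mul_of_pos_left _ hRpos
  have hT'big : N + 2 * z K + s + 2 ≤ T' := by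
    rw [hT']
    have : N + 2 * z K + s + 2 ≤ R * (N + 2 * z K + s + 2) := Nat.le_mul_of_pos_left _ hRpos
    omega
  refine ⟨n, by omega, fun W hW hwin => ?_⟩
  have hnpos : (0 : ℝ) < n := by
    have : 0 < n := by omega
    exact_mod_cast this
  -- apply the game bound
  have hcardD : ∀ k, ((DD n (z (k + 1)) (W0 * z k)).card : ℝ) ≤ n / W0 := by
    intro k
    refine (DD_card n _ _ (Nat.mul_pos hW0nat (hzpos k))).trans ?_
    apply div_le_div_of_nonneg_left hnpos.le hW0pos
    have : W0 ≤ W0 * z k := Nat.le_mul_of_pos_right _ (hzpos k)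
    exact_mod_cast this
  have hcardDz : ∀ k j, k + 1 ≤ j →
      ((DD n (z (j + 1)) (W0 * z j)).card : ℝ) * z (k + 1) ≤ n / W0 := by
    intro k j hkj
    have h1 := DD_card n (z (j + 1)) (W0 * z j) (Nat.mul_pos hW0nat (hzpos j))
    have hzj : (0 : ℝ) < z j := by exact_mod_cast hzpos j
    have hzk : (z (k + 1) : ℝ) ≤ z j := by exact_mod_cast hmono hkj
    calc ((DD n (z (j + 1)) (W0 * z j)).card : ℝ) * z (k + 1)
        ≤ ((DD n (z (j + 1)) (W0 * z j)).card : ℝ) * z j :=
          mul_le_mul_of_nonneg_left hzk (Nat.cast_nonneg _)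
      _ ≤ (n / ((W0 * z j : ℕ) : ℝ)) * z j := mul_le_mul_of_nonneg_right h1 hzj.le
      _ = n / W0 := by push_cast; field_simp
  have hgame := game_bound hwin hW (fun k => DD n (z (k + 1)) (W0 * z k))
    (fun k => (z (k + 1) : ℝ)) (z K + 2 * (K * (n / W0))) K (by omega)
    (fun k _ => DD_sub _ _ _)
    (fun k _ m hm d hd d' hd' h h' => DD_unique hm hd hd' h h')
    (fun k _ => Nat.cast_nonneg _)
    (fun k _ d hd => DD_mult _ _ _ _ hd)
    (by
      intro k hk
      have h1 : (z (k + 1) : ℝ) ≤ z K := by exact_mod_cast hmono hk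
      have h2 : (∑ j ∈ Ioo k K, ((DD n (z (j + 1)) (W0 * z j)).card : ℝ)) * z (k + 1) ≤
          K * (n / W0) := by
        rw [sum_mul]
        calc ∑ j ∈ Ioo k K, ((DD n (z (j + 1)) (W0 * z j)).card : ℝ) * z (k + 1)
            ≤ ∑ j ∈ Ioo k K, (n / W0 : ℝ) := by
              apply sum_le_sum
              intro j hj
              rw [mem_Ioo] at hj
              exact hcardDz k j hj.1
          _ = ((Ioo k K).card : ℝ) * (n / W0) := by rw [sum_const, nsmul_eq_mul]
          _ ≤ K * (n / W0) := by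
              apply mul_le_mul_of_nonneg_right _ (by positivity)
              have : (Ioo k K).card ≤ K := by rw [Nat.card_Ioo]; omega
              exact_mod_cast this
      calc (1 + 2 * ∑ j ∈ Ioo k K, ((DD n (z (j + 1)) (W0 * z j)).card : ℝ)) * (z (k + 1) : ℝ)
          = z (k + 1) + 2 * ((∑ j ∈ Ioo k K, ((DD n (z (j + 1)) (W0 * z j)).card : ℝ)) *
            z (k + 1)) := by ring
        _ ≤ _ := by linarith)
  -- bound the number of moves in the phases
  have hmoves : ∑ k ∈ range K, ((DD n (z (k + 1)) (W0 * z k)).card : ℝ) ≤ K * (n / W0) := by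
    calc ∑ k ∈ range K, ((DD n (z (k + 1)) (W0 * z k)).card : ℝ)
        ≤ ∑ k ∈ range K, (n / W0 : ℝ) := sum_le_sum (fun k _ => hcardD k)
      _ = K * (n / W0) := by rw [sum_const, card_range, nsmul_eq_mul]
  -- bound the static weight
  set g : ℕ → ℝ := fun m => ∏ k ∈ range K,
      (if (W0 * z k < Nat.gcd (Q (z k) (z (k + 1))) m ∧
            Nat.gcd (Q (z k) (z (k + 1))) m ≤ x k) then (1 / 2 : ℝ) else 1) with hg
  have hg0 : ∀ m, 0 ≤ g m := by
    intro m
    apply prod_nonneg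
    intro k _
    split_ifs <;> norm_num
  have hg1 : ∀ m, g m ≤ 1 := by
    intro m
    apply prod_le_one
    · intro k _
      split_ifs <;> norm_num
    · intro k _
      split_ifs <;> norm_num
  have hwt : ∀ m ∈ Icc 1 n, wt (fun k => DD n (z (k + 1)) (W0 * z k)) K m ≤
      (if A * m ≤ n then (1 : ℝ) else 0) + (if Bad y0 E0 m then (1 : ℝ) else 0) + g m := by
    intro m hm
    rw [mem_Icc] at hm
    by_cases hAm : A * m ≤ n
    · rw [if_pos hAm]
      have h1 := wt_le_one (fun k => DD n (z (k + 1)) (W0 * z k)) K m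
      have h2 := hg0 m
      have h3 : (0 : ℝ) ≤ (if Bad y0 E0 m then (1 : ℝ) else 0) := by split_ifs <;> norm_num
      linarith
    · by_cases hbad : Bad y0 E0 m
      · rw [if_pos hbad]
        have h1 := wt_le_one (fun k => DD n (z (k + 1)) (W0 * z k)) K m
        have h2 := hg0 m
        have h3 : (0 : ℝ) ≤ (if A * m ≤ n then (1 : ℝ) else 0) := by split_ifs <;> norm_num
        linarith
      · rw [if_neg hAm, if_neg hbad, zero_add, zero_add]
        unfold wt
        apply prod_le_prod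
        · intro k _
          split_ifs <;> norm_num
        · intro k hk
          rw [mem_range] at hk
          by_cases hgk : (W0 * z k < Nat.gcd (Q (z k) (z (k + 1))) m ∧
            Nat.gcd (Q (z k) (z (k + 1))) m ≤ x k)
          · have hex : ∃ d ∈ DD n (z (k + 1)) (W0 * z k), d ∣ m := by
              apply exists_div n A y0 E0 (z k) (z (k + 1)) (W0 * z k) (x k) m
              · have := hmono (Nat.zero_le k); omega
              · exact hz k
              · exact hL k
              · exact hm.1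
              · exact hm.2
              · omega
              · exact hbad
              · have : z (k + 1) ≤ z K := hmono hk
                omega
              · exact hgk.1
              · exact hgk.2
            rw [if_pos hex, if_pos hgk]
          · rw [if_neg hgk]
            split_ifs <;> norm_num
  have hsum : ∑ m ∈ Icc 1 n, wt (fun k => DD n (z (k + 1)) (W0 * z k)) K m ≤
      n * (1 / A) + n * (1 / (y0 : ℝ) + y0 / 2 ^ E0) + (n * (1 - cst / 2) ^ K + 1) := by
    refine (sum_le_sum hwt).trans ?_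
    rw [sum_add_distrib, sum_add_distrib]
    have h1 : ∑ m ∈ Icc 1 n, (if A * m ≤ n then (1 : ℝ) else 0) ≤ n * (1 / A) := by
      rw [← card_filter_eq_sum]
      have hAnat : 0 < A := by exact_mod_cast hApos
      have h2 : (Icc 1 n).filter (fun m => A * m ≤ n) ⊆ Icc 1 (n / A) := by
        intro m hm
        rw [mem_filter, mem_Icc] at hm
        rw [mem_Icc, Nat.le_div_iff_mul_le hAnat]
        exact ⟨hm.1.1, by rw [mul_comm]; exact hm.2⟩
      have h3 := card_le_card h2
      rw [Nat.card_Icc, Nat.add_sub_cancel] at h3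
      calc (((Icc 1 n).filter (fun m => A * m ≤ n)).card : ℝ) ≤ ((n / A : ℕ) : ℝ) := by
            exact_mod_cast h3
        _ ≤ n / A := Nat.cast_div_le
        _ = n * (1 / A) := by ring
    have h2 : ∑ m ∈ Icc 1 n, (if Bad y0 E0 m then (1 : ℝ) else 0) ≤
        n * (1 / (y0 : ℝ) + y0 / 2 ^ E0) := by
      rw [← card_filter_eq_sum]
      exact bad_count y0 E0 n hy0nat
    have h3 : ∑ m ∈ Icc 1 n, g m ≤ n * (1 - cst / 2) ^ K + 1 := by
      have h4 : ∑ m ∈ Icc 1 n, g m ≤ ∑ m ∈ range (n + 1), g m := by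
        apply sum_le_sum_of_subset_of_nonneg
        · intro m hm
          rw [mem_Icc] at hm
          rw [mem_range]; omega
        · intro m _ _; exact hg0 m
      rw [sum_range_succ] at h4
      have h5 := avg_bound z x W0 K T' hz hT'pos hcop hcount
      have h6 := hg1 n
      have h7 : ∑ m ∈ range n, g m ≤ (n : ℝ) * (1 - cst / 2) ^ K := h5
      linarith
    linarith
  -- final contradiction
  have hsn : (s : ℝ) ≤ n := by
    have : s ≤ n := by omega
    exact_mod_cast this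
  have hbig : (2 + K * (z K : ℝ)) * 8 / ε < n := lt_of_lt_of_le hs hsn
  rw [div_lt_iff₀ hε] at hbig
  have e1 : (n : ℝ) * (1 / A) ≤ n * (ε / 8) := mul_le_mul_of_nonneg_left hA' hnpos.le
  have e2 : (n : ℝ) * (1 / (y0 : ℝ) + y0 / 2 ^ E0) ≤ n * (ε / 8 + ε / 8) :=
    mul_le_mul_of_nonneg_left (add_le_add hy0' hE0') hnpos.le
  have e3 : (n : ℝ) * (1 - cst / 2) ^ K ≤ n * (ε / 8) := mul_le_mul_of_nonneg_left hK.le hnpos.le
  have e4 : (2 * K + K ^ 2) / (W0 : ℝ) * n ≤ ε / 8 * n := mul_le_mul_of_nonneg_right hW0' hnpos.le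
  have e5 : 2 * ((K : ℝ) * (n / W0)) + K * ((z K + 2 * (K * (n / W0))) / 2) =
      (2 * K + K ^ 2) / (W0 : ℝ) * n + K * z K / 2 := by
    field_simp
    ring
  have hKz : (0 : ℝ) ≤ K * z K := by positivity
  nlinarith

end Pool.Agent.Work.MP_c7798c_co
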