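import Mathlib

set_option autoImplicit false

namespace Pool.Agent.Work.MP_c7798c_co

open Finset

/-- `x` is comparable (under divisibility) with no element of `S`. -/
def Free (S : Finset ℕ) (x : ℕ) : Prop := ∀ y ∈ S, ¬ x ∣ y ∧ ¬ y ∣ x

/-- `x` is a multiple of some element of `S`. -/
def Dead (S : Finset ℕ) (x : ℕ) : Prop := ∃ y ∈ S, y ∣ x

/-- `x` is a divisor of some element of `S`. -/
def Prot (S : Finset ℕ) (x : ℕ) : Prop := ∃ y ∈ S, x ∣ y

/-- `W` is a set of positions from which Prolonger can guarantee final size at least `t`. -/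
structure IsWin (n : ℕ) (t : ℝ) (W : Finset ℕ → Prop) : Prop where
  term : ∀ S, W S → (∀ x ∈ Finset.Icc 2 n, ∃ y ∈ S, x ∣ y ∨ y ∣ x) → t ≤ (S.card : ℝ)
  even : ∀ S, W S → Even S.card → (∃ x ∈ Finset.Icc 2 n, Free S x) →
    ∃ x ∈ Finset.Icc 2 n, Free S x ∧ W (insert x S)
  odd : ∀ S, W S → ¬ Even S.card → ∀ x ∈ Finset.Icc 2 n, Free S x → W (insert x S)

lemma free_iff (S : Finset ℕ) (x : ℕ) : Free S x ↔ ¬ Dead S x ∧ ¬ Prot S x := by
  unfold Free Dead Prot
  constructor
  · intro h
    exact ⟨fun ⟨y, hy, hd⟩ => (h y hy).2 hd, fun ⟨y, hy, hd⟩ => (h y hy).1 hd⟩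
  · rintro ⟨h1, h2⟩ y hy
    exact ⟨fun hd => h2 ⟨y, hy, hd⟩, fun hd => h1 ⟨y, hy, hd⟩⟩

lemma Free.notMem {S : Finset ℕ} {x : ℕ} (h : Free S x) : x ∉ S :=
  fun hx => (h x hx).1 dvd_rfl

lemma Dead.mono {S S' : Finset ℕ} (hs : S ⊆ S') {x : ℕ} (h : Dead S x) : Dead S' x := by
  obtain ⟨y, hy, hd⟩ := h
  exact ⟨y, hs hy, hd⟩

lemma Dead.dvd {S : Finset ℕ} {x x' : ℕ} (h : Dead S x) (hx : x ∣ x') : Dead S x' := by
  obtain ⟨y, hy, hd⟩ := h
  exact ⟨y, hy, hd.trans hx⟩

lemma Free.anti {S S' : Finset ℕ} (hs : S ⊆ S') {x : ℕ} (h : Free S' x) : Free S x :=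
  fun y hy => h y (hs hy)

open Classical in
/-- From any winning position, the number of claimed plus the number of free integers is `≥ t`. -/
lemma long_game {n : ℕ} {t : ℝ} {W : Finset ℕ → Prop} (h : IsWin n t W) :
    ∀ (a : ℕ) (S : Finset ℕ), W S → ((Icc 2 n).filter (Free S)).card ≤ a →
      t ≤ (S.card : ℝ) + (((Icc 2 n).filter (Free S)).card : ℝ) := by
  intro a
  induction a with
  | zero =>
    intro S hW hc
    have hemp : (Icc 2 n).filter (Free S) = ∅ := card_eq_zero.mp (Nat.le_zero.mp hc)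
    have hterm : ∀ x ∈ Finset.Icc 2 n, ∃ y ∈ S, x ∣ y ∨ y ∣ x := by
      intro x hx
      by_contra hcon
      push Not at hcon
      have : x ∈ (Icc 2 n).filter (Free S) := by
        rw [mem_filter]
        exact ⟨hx, fun y hy => hcon y hy⟩
      rw [hemp] at this
      exact absurd this (notMem_empty x)
    have := h.term S hW hterm
    rw [hemp]
    simpa using this
  | succ a ih =>
    intro S hW hc
    by_cases hex : ∃ x ∈ Finset.Icc 2 n, Free S x
    · have key : ∃ x ∈ Finset.Icc 2 n, Free S x ∧ W (insert x S) := by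
        by_cases hev : Even S.card
        · exact h.even S hW hev hex
        · obtain ⟨x, hx, hf⟩ := hex
          exact ⟨x, hx, hf, h.odd S hW hev x hx hf⟩
      obtain ⟨x, hx, hf, hW'⟩ := key
      have hsub : (Icc 2 n).filter (Free (insert x S)) ⊆ ((Icc 2 n).filter (Free S)).erase x := by
        intro z hz
        rw [mem_filter] at hz
        rw [mem_erase, mem_filter]
        refine ⟨?_, hz.1, hz.2.anti (subset_insert _ _)⟩
        rintro rfl
        exact (hz.2 z (mem_insert_self _ _)).1 dvd_rfl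
      have hmem : x ∈ (Icc 2 n).filter (Free S) := by
        rw [mem_filter]; exact ⟨hx, hf⟩
      have hle := card_le_card hsub
      rw [card_erase_of_mem hmem] at hle
      have hpos : 0 < ((Icc 2 n).filter (Free S)).card := card_pos.mpr ⟨x, hmem⟩
      have h1 := ih (insert x S) hW' (by omega)
      rw [card_insert_of_notMem hf.notMem] at h1
      have h2 : (((Icc 2 n).filter (Free (insert x S))).card : ℝ) + 1 ≤
          (((Icc 2 n).filter (Free S)).card : ℝ) := by
        have : ((Icc 2 n).filter (Free (insert x S))).card + 1 ≤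
          ((Icc 2 n).filter (Free S)).card := by omega
        exact_mod_cast this
      push_cast at h1
      linarith
    · have hterm : ∀ x ∈ Finset.Icc 2 n, ∃ y ∈ S, x ∣ y ∨ y ∣ x := by
        intro x hx
        by_contra hcon
        push Not at hcon
        exact hex ⟨x, hx, fun y hy => hcon y hy⟩
      have := h.term S hW hterm
      have h0 : (0 : ℝ) ≤ (((Icc 2 n).filter (Free S)).card : ℝ) := Nat.cast_nonneg _
      linarith

/-- One full round: Shortener claims `s`, Prolonger answers. -/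
lemma one_round {n : ℕ} {t : ℝ} {W : Finset ℕ → Prop} (h : IsWin n t W) (S : Finset ℕ)
    (hW : W S) (hodd : ¬ Even S.card) (hcard : (S.card : ℝ) + 1 < t) (s : ℕ)
    (hs : s ∈ Icc 2 n) (hf : Free S s) :
    ∃ x ∈ Icc 2 n, Free (insert s S) x ∧ W (insert x (insert s S)) := by
  have h1 : W (insert s S) := h.odd S hW hodd s hs hf
  have hc : (insert s S).card = S.card + 1 := card_insert_of_notMem hf.notMem
  have hev : Even (insert s S).card := by
    rw [hc]
    exact Nat.even_add_one.mpr hodd
  apply h.even _ h1 hev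
  by_contra hcon
  have hterm : ∀ x ∈ Finset.Icc 2 n, ∃ y ∈ insert s S, x ∣ y ∨ y ∣ x := by
    intro x hx
    by_contra hcon2
    push Not at hcon2
    exact hcon ⟨x, hx, fun y hy => hcon2 y hy⟩
  have := h.term _ h1 hterm
  rw [hc] at this
  push_cast at this
  linarith

open Classical in
/-- The weight coefficient of `d` in position `S`. -/
noncomputable def coef (S : Finset ℕ) (d : ℕ) : ℝ :=
  if Dead S d then 0 else if Prot S d then 1 else 1 / 2

lemma coef_nonneg (S : Finset ℕ) (d : ℕ) : 0 ≤ coef S d := by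
  unfold coef
  split_ifs <;> norm_num

lemma coef_le_one (S : Finset ℕ) (d : ℕ) : coef S d ≤ 1 := by
  unfold coef
  split_ifs <;> norm_num

open Classical in
lemma phase_aux {n : ℕ} {t : ℝ} {W : Finset ℕ → Prop} (h : IsWin n t W) (D : Finset ℕ)
    (hD : D ⊆ Icc 2 n)
    (huniq : ∀ m ∈ Icc 1 n, ∀ d ∈ D, ∀ d' ∈ D, d ∣ m → d' ∣ m → d = d')
    (V : ℕ → ℝ) (hV : ∀ d, 0 ≤ V d) :
    ∀ (a : ℕ) (S : Finset ℕ), W S → ¬ Even S.card → S ⊆ Icc 2 n →
      (D.filter (Free S)).card ≤ a → (S.card : ℝ) + 2 * a < t →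
      ∃ S', W S' ∧ ¬ Even S'.card ∧ S' ⊆ Icc 2 n ∧ S ⊆ S' ∧ S'.card ≤ S.card + 2 * a ∧
        (∀ d ∈ D, ¬ Free S' d) ∧ ∑ d ∈ D, V d * coef S' d ≤ ∑ d ∈ D, V d * coef S d := by
  intro a
  induction a with
  | zero =>
    intro S hW hodd hS hc _
    have hemp : D.filter (Free S) = ∅ := card_eq_zero.mp (Nat.le_zero.mp hc)
    refine ⟨S, hW, hodd, hS, Subset.rfl, by omega, ?_, le_rfl⟩
    intro d hd hf
    have : d ∈ D.filter (Free S) := by rw [mem_filter]; exact ⟨hd, hf⟩
    rw [hemp] at this
    exact absurd this (notMem_empty d)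
  | succ a ih =>
    intro S hW hodd hS hc hcard
    by_cases hne : (D.filter (Free S)).Nonempty
    · -- Shortener picks the free element of maximal weight
      obtain ⟨s, hsm, hsmax⟩ := exists_max_image (D.filter (Free S)) V hne
      rw [mem_filter] at hsm
      obtain ⟨hsD, hsf⟩ := hsm
      have hsI : s ∈ Icc 2 n := hD hsD
      push_cast at hcard
      have hcard1 : (S.card : ℝ) + 1 < t := by
        have : (0 : ℝ) ≤ a := Nat.cast_nonneg a
        linarith
      obtain ⟨x, hxI, hxf, hW2⟩ := one_round h S hW hodd hcard1 s hsI hsf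
      set S1 := insert s S with hS1
      set S2 := insert x S1 with hS2
      have hSS2 : S ⊆ S2 := (subset_insert _ _).trans (subset_insert _ _)
      have hc1 : S1.card = S.card + 1 := card_insert_of_notMem hsf.notMem
      have hc2 : S2.card = S.card + 2 := by
        rw [hS2, card_insert_of_notMem hxf.notMem, hc1]
      have hodd2 : ¬ Even S2.card := by
        rw [hc2]
        intro he
        apply hodd
        have := (Nat.even_add (m := S.card) (n := 2)).mp he
        exact this.mpr (by norm_num)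
      have hS2I : S2 ⊆ Icc 2 n := by
        rw [hS2, hS1]
        intro z hz
        rcases mem_insert.mp hz with rfl | hz
        · exact hxI
        · rcases mem_insert.mp hz with rfl | hz
          · exact hsI
          · exact hS hz
      have hsub : D.filter (Free S2) ⊆ (D.filter (Free S)).erase s := by
        intro z hz
        rw [mem_filter] at hz
        rw [mem_erase, mem_filter]
        refine ⟨?_, hz.1, hz.2.anti hSS2⟩
        rintro rfl
        exact (hz.2 z (mem_insert_of_mem (mem_insert_self _ _))).1 dvd_rfl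
      have hle := card_le_card hsub
      have hsmem : s ∈ D.filter (Free S) := by rw [mem_filter]; exact ⟨hsD, hsf⟩
      rw [card_erase_of_mem hsmem] at hle
      have hpos : 0 < (D.filter (Free S)).card := card_pos.mpr ⟨s, hsmem⟩
      have hcard2 : (S2.card : ℝ) + 2 * a < t := by
        rw [hc2]; push_cast; linarith
      obtain ⟨S', hW', hodd', hS'I, hsub', hcard', hnf, hpot⟩ :=
        ih S2 hW2 hodd2 hS2I (by omega) hcard2
      refine ⟨S', hW', hodd', hS'I, hSS2.trans hsub', by omega, hnf, hpot.trans ?_⟩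
      -- potential does not increase in one round
      -- dead/prot status changes
      have hcs : coef S s = 1 / 2 := by
        have := (free_iff S s).mp hsf
        unfold coef
        rw [if_neg this.1, if_neg this.2]
      have hcs2 : coef S2 s = 0 := by
        have : Dead S2 s := ⟨s, mem_insert_of_mem (mem_insert_self _ _), dvd_rfl⟩
        unfold coef
        rw [if_pos this]
      -- for d in D, d ≠ s, not dividing x : coef decreases
      have hmono : ∀ d ∈ D, d ≠ s → ¬ (d ∣ x ∧ Free S d) → coef S2 d ≤ coef S d := by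
        intro d hd hds hdx
        by_cases hdead : Dead S d
        · have : Dead S2 d := hdead.mono hSS2
          unfold coef
          rw [if_pos this, if_pos hdead]
        · by_cases hprot : Prot S d
          · have h1 : coef S d = 1 := by
              unfold coef
              rw [if_neg hdead, if_pos hprot]
            rw [h1]
            exact coef_le_one _ _
          · have hfd : Free S d := (free_iff S d).mpr ⟨hdead, hprot⟩
            have hndx : ¬ d ∣ x := fun hh => hdx ⟨hh, hfd⟩
            have hnds : ¬ d ∣ s := by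
              intro hh
              apply hds
              refine huniq s ?_ d hd s hsD hh dvd_rfl
              rw [mem_Icc] at hsI ⊢
              omega
            have hnp2 : ¬ Prot S2 d := by
              rintro ⟨y, hy, hdy⟩
              rcases mem_insert.mp hy with rfl | hy
              · exact hndx hdy
              · rcases mem_insert.mp hy with rfl | hy
                · exact hnds hdy
                · exact hprot ⟨y, hy, hdy⟩
            have h1 : coef S d = 1 / 2 := by
              unfold coef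
              rw [if_neg hdead, if_neg hprot]
            rw [h1]
            unfold coef
            split_ifs <;> norm_num
      by_cases hδ : ∃ δ ∈ D, δ ∣ x ∧ Free S δ
      · obtain ⟨δ, hδD, hδx, hδf⟩ := hδ
        have hδs : δ ≠ s := by
          rintro rfl
          -- s ∣ x contradicts freeness of x in S1
          exact (hxf δ (mem_insert_self _ _)).2 hδx
        have hVle : V δ ≤ V s := hsmax δ (by rw [mem_filter]; exact ⟨hδD, hδf⟩)
        have hcδ : coef S δ = 1 / 2 := by
          have := (free_iff S δ).mp hδf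
          unfold coef
          rw [if_neg this.1, if_neg this.2]
        have hcδ2 : coef S2 δ ≤ 1 := coef_le_one _ _
        have hother : ∀ d ∈ (D.erase s).erase δ, V d * coef S2 d ≤ V d * coef S d := by
          intro d hd
          rw [mem_erase, mem_erase] at hd
          obtain ⟨hdδ, hds, hdD⟩ := hd
          apply mul_le_mul_of_nonneg_left _ (hV d)
          apply hmono d hdD hds
          rintro ⟨hdx, _⟩
          apply hdδ
          refine huniq x ?_ d hdD δ hδD hdx hδx
          rw [mem_Icc] at hxI ⊢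
          omega
        have hδmem : δ ∈ D.erase s := mem_erase.mpr ⟨hδs, hδD⟩
        rw [← add_sum_erase D (fun d => V d * coef S2 d) hsD,
          ← add_sum_erase (D.erase s) (fun d => V d * coef S2 d) hδmem,
          ← add_sum_erase D (fun d => V d * coef S d) hsD,
          ← add_sum_erase (D.erase s) (fun d => V d * coef S d) hδmem]
        have hsum := sum_le_sum hother
        simp only [hcs, hcs2, hcδ]
        have h3 : V δ * coef S2 δ ≤ V δ * 1 := mul_le_mul_of_nonneg_left hcδ2 (hV δ)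
        linarith
      · apply sum_le_sum
        intro d hd
        apply mul_le_mul_of_nonneg_left _ (hV d)
        by_cases hds : d = s
        · rw [hds, hcs2]
          exact coef_nonneg _ _
        · apply hmono d hd hds
          intro hh
          exact hδ ⟨d, hd, hh⟩
    · have hemp : D.filter (Free S) = ∅ := not_nonempty_iff_eq_empty.mp hne
      refine ⟨S, hW, hodd, hS, Subset.rfl, by omega, ?_, le_rfl⟩
      intro d hd hf
      have : d ∈ D.filter (Free S) := by rw [mem_filter]; exact ⟨hd, hf⟩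
      rw [hemp] at this
      exact absurd this (notMem_empty d)

open Classical in
/-- A phase: at least about half of the weight of `D` dies. -/
lemma phase {n : ℕ} {t : ℝ} {W : Finset ℕ → Prop} (h : IsWin n t W) (D : Finset ℕ)
    (hD : D ⊆ Icc 2 n)
    (huniq : ∀ m ∈ Icc 1 n, ∀ d ∈ D, ∀ d' ∈ D, d ∣ m → d' ∣ m → d = d')
    (V : ℕ → ℝ) (hV : ∀ d, 0 ≤ V d) (B : ℝ) (hB0 : 0 ≤ B) (hB : ∀ d ∈ D, V d ≤ B)
    (S : Finset ℕ) (hW : W S) (hodd : ¬ Even S.card) (hS : S ⊆ Icc 2 n)
    (hcard : (S.card : ℝ) + 2 * D.card < t) :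
    ∃ S', W S' ∧ ¬ Even S'.card ∧ S' ⊆ Icc 2 n ∧ S ⊆ S' ∧ S'.card ≤ S.card + 2 * D.card ∧
      ∑ d ∈ D with ¬ Dead S' d, V d ≤
        (1 / 2) * ∑ d ∈ D with ¬ Dead S d, V d + (1 / 2) * (S.card * B) := by
  obtain ⟨S', hW', hodd', hS', hsub, hcard', hnf, hpot⟩ :=
    phase_aux h D hD huniq V hV D.card S hW hodd hS (card_filter_le _ _) hcard
  refine ⟨S', hW', hodd', hS', hsub, hcard', ?_⟩
  have h1 : ∑ d ∈ D with ¬ Dead S' d, V d = ∑ d ∈ D, V d * coef S' d := by
    rw [sum_filter]
    apply sum_congr rfl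
    intro d hd
    by_cases hdead : Dead S' d
    · simp [coef, hdead]
    · have hp : Prot S' d := by
        by_contra hnp
        exact hnf d hd ((free_iff S' d).mpr ⟨hdead, hnp⟩)
      simp [coef, hdead, hp]
  have h2 : ∑ d ∈ D, V d * coef S d ≤
      (1 / 2) * ∑ d ∈ D with ¬ Dead S d, V d + (1 / 2) * ∑ d ∈ D with Prot S d, V d := by
    rw [sum_filter, sum_filter, mul_sum, mul_sum, ← sum_add_distrib]
    apply sum_le_sum
    intro d hd
    have hVd := hV d
    by_cases hdead : Dead S d <;> by_cases hp : Prot S d <;> simp [coef, hdead, hp] <;> linarith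
  have h3 : ∑ d ∈ D with Prot S d, V d ≤ S.card * B := by
    have hcardle : (D.filter (Prot S)).card ≤ S.card := by
      have hch : ∀ d ∈ D.filter (Prot S), ∃ y ∈ S, d ∣ y := fun d hd => (mem_filter.mp hd).2
      choose! f hf1 hf2 using hch
      apply card_le_card_of_injOn f hf1
      intro d hd d' hd' hff
      have hy := hS (hf1 d hd)
      refine huniq (f d) ?_ d (mem_filter.mp hd).1 d' (mem_filter.mp hd').1 (hf2 d hd) ?_
      · rw [mem_Icc] at hy ⊢; omega
      · rw [hff]; exact hf2 d' hd'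
    calc ∑ d ∈ D with Prot S d, V d ≤ ∑ d ∈ D with Prot S d, B :=
          sum_le_sum (fun d hd => hB d (mem_filter.mp hd).1)
      _ = ((D.filter (Prot S)).card : ℝ) * B := by rw [sum_const, nsmul_eq_mul]
      _ ≤ S.card * B := by
          apply mul_le_mul_of_nonneg_right _ hB0
          exact_mod_cast hcardle
  rw [h1]
  linarith

open Classical in
/-- The future weight of `m` with respect to the phases `D 0, ..., D (K-1)`. -/
noncomputable def wt (D : ℕ → Finset ℕ) (K m : ℕ) : ℝ :=
  ∏ k ∈ range K, (if ∃ d ∈ D k, d ∣ m then (1 / 2 : ℝ) else 1)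

lemma wt_nonneg (D : ℕ → Finset ℕ) (K m : ℕ) : 0 ≤ wt D K m := by
  unfold wt
  apply prod_nonneg
  intro k _
  split_ifs <;> norm_num

lemma wt_le_one (D : ℕ → Finset ℕ) (K m : ℕ) : wt D K m ≤ 1 := by
  unfold wt
  apply prod_le_one
  · intro k _
    split_ifs <;> norm_num
  · intro k _
    split_ifs <;> norm_num

open Classical in
lemma wt_succ (D : ℕ → Finset ℕ) (K m : ℕ) :
    wt D (K + 1) m = wt D K m * (if ∃ d ∈ D K, d ∣ m then (1 / 2 : ℝ) else 1) := by
  unfold wt
  rw [prod_range_succ]

open Classical in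
/-- All phases, played in the order `K-1, ..., 0`. -/
lemma phases {n : ℕ} {t : ℝ} {W : Finset ℕ → Prop} (h : IsWin n t W) (D : ℕ → Finset ℕ)
    (B : ℕ → ℝ) (η : ℝ) : ∀ (K : ℕ),
    (∀ k < K, D k ⊆ Icc 2 n) →
    (∀ k < K, ∀ m ∈ Icc 1 n, ∀ d ∈ D k, ∀ d' ∈ D k, d ∣ m → d' ∣ m → d = d') →
    (∀ k < K, 0 ≤ B k) →
    (∀ k < K, ∀ d ∈ D k, (((Icc 1 n).filter (fun m => d ∣ m)).card : ℝ) ≤ B k) →
    ∀ (S : Finset ℕ), W S → ¬ Even S.card → S ⊆ Icc 2 n →
    (S.card : ℝ) + 2 * ∑ k ∈ range K, ((D k).card : ℝ) < t →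
    (∀ k < K, ((S.card : ℝ) + 2 * ∑ j ∈ Ioo k K, ((D j).card : ℝ)) * B k ≤ η) →
    ∃ S', W S' ∧ S' ⊆ Icc 2 n ∧ (S'.card : ℝ) ≤ S.card + 2 * ∑ k ∈ range K, ((D k).card : ℝ) ∧
      (((Icc 1 n).filter (fun m => ¬ Dead S' m)).card : ℝ) ≤
        ∑ m ∈ Icc 1 n with ¬ Dead S m, wt D K m + K * (η / 2) := by
  intro K
  induction K with
  | zero =>
    intro _ _ _ _ S hW _ hS _ _
    refine ⟨S, hW, hS, by simp, ?_⟩
    simp [wt]
  | succ K ih =>
    intro hD huniq hB0 hB S hW hodd hS hcard hη
    have hK : K < K + 1 := Nat.lt_succ_self K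
    set V : ℕ → ℝ := fun d => ∑ m ∈ Icc 1 n with (d ∣ m ∧ ¬ Dead S m), wt D K m with hVdef
    have hV : ∀ d, 0 ≤ V d := fun d => sum_nonneg (fun m _ => wt_nonneg D K m)
    have hVB : ∀ d ∈ D K, V d ≤ B K := by
      intro d hd
      calc V d ≤ ∑ m ∈ Icc 1 n with (d ∣ m ∧ ¬ Dead S m), (1 : ℝ) :=
            sum_le_sum (fun m _ => wt_le_one D K m)
        _ = (((Icc 1 n).filter (fun m => d ∣ m ∧ ¬ Dead S m)).card : ℝ) := by simp
        _ ≤ (((Icc 1 n).filter (fun m => d ∣ m)).card : ℝ) := by
            have : ((Icc 1 n).filter (fun m => d ∣ m ∧ ¬ Dead S m)).card ≤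
                ((Icc 1 n).filter (fun m => d ∣ m)).card := by
              apply card_le_card
              intro m hm
              rw [mem_filter] at hm ⊢
              exact ⟨hm.1, hm.2.1⟩
            exact_mod_cast this
        _ ≤ B K := hB K hK d hd
    rw [sum_range_succ] at hcard
    have hsumnn : (0 : ℝ) ≤ ∑ k ∈ range K, ((D k).card : ℝ) :=
      sum_nonneg (fun _ _ => Nat.cast_nonneg _)
    have hcard1 : (S.card : ℝ) + 2 * (D K).card < t := by linarith
    obtain ⟨S1, hW1, hodd1, hS1I, hSS1, hc1, hph⟩ :=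
      phase h (D K) (hD K hK) (huniq K hK) V hV (B K) (hB0 K hK) hVB S hW hodd hS hcard1
    have hc1' : (S1.card : ℝ) ≤ S.card + 2 * (D K).card := by exact_mod_cast hc1
    have hIoo : ∀ k < K, ∑ j ∈ Ioo k (K + 1), ((D j).card : ℝ) =
        ∑ j ∈ Ioo k K, ((D j).card : ℝ) + (D K).card := by
      intro k hk
      have : Ioo k (K + 1) = insert K (Ioo k K) := by
        ext j; simp only [mem_Ioo, mem_insert]; omega
      rw [this, sum_insert (by simp), add_comm]
    obtain ⟨S', hW', hS'I, hc', hal⟩ := ih (fun k hk => hD k (by omega))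
      (fun k hk => huniq k (by omega)) (fun k hk => hB0 k (by omega))
      (fun k hk => hB k (by omega)) S1 hW1 hodd1 hS1I
      (by linarith)
      (by
        intro k hk
        have h1 := hη k (by omega)
        rw [hIoo k hk] at h1
        refine le_trans ?_ h1
        apply mul_le_mul_of_nonneg_right _ (hB0 k (by omega))
        linarith)
    refine ⟨S', hW', hS'I, ?_, hal.trans ?_⟩
    · rw [sum_range_succ]; linarith
    · -- main inequality
      have hηK : (S.card : ℝ) * B K ≤ η := by
        have h1 := hη K hK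
        have h2 : Ioo K (K + 1) = (∅ : Finset ℕ) := by
          ext j; simp only [mem_Ioo, notMem_empty, iff_false]; omega
        rw [h2, sum_empty] at h1
        linarith
      have hdisj : ∀ D' ⊆ D K, (D' : Set ℕ).PairwiseDisjoint
          (fun d => (Icc 1 n).filter (fun m => d ∣ m ∧ ¬ Dead S m)) := by
        intro D' hD' d hd d' hd' hne
        rw [Function.onFun, disjoint_left]
        intro m hm hm'
        rw [mem_filter] at hm hm'
        exact hne (huniq K hK m hm.1 d (hD' hd) d' (hD' hd') hm.2.1 hm'.2.1)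
      have hA : ∑ m ∈ Icc 1 n with ¬ Dead S1 m, wt D K m ≤
          ∑ d ∈ D K with ¬ Dead S1 d, V d +
          ∑ m ∈ Icc 1 n with (¬ Dead S m ∧ ¬ ∃ d ∈ D K, d ∣ m), wt D K m := by
        have hsplit : (Icc 1 n).filter (fun m => ¬ Dead S1 m) ⊆
            ((D K).filter (fun d => ¬ Dead S1 d)).biUnion
              (fun d => (Icc 1 n).filter (fun m => d ∣ m ∧ ¬ Dead S m)) ∪
            (Icc 1 n).filter (fun m => ¬ Dead S m ∧ ¬ ∃ d ∈ D K, d ∣ m) := by
          intro m hm
          rw [mem_filter] at hm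
          have hndS : ¬ Dead S m := fun hd => hm.2 (hd.mono hSS1)
          rw [mem_union]
          by_cases hex : ∃ d ∈ D K, d ∣ m
          · left
            obtain ⟨d, hd, hdm⟩ := hex
            rw [mem_biUnion]
            refine ⟨d, ?_, ?_⟩
            · rw [mem_filter]
              exact ⟨hd, fun hdd => hm.2 (hdd.dvd hdm)⟩
            · rw [mem_filter]
              exact ⟨hm.1, hdm, hndS⟩
          · right
            rw [mem_filter]
            exact ⟨hm.1, hndS, hex⟩
        have hbi : ∑ d ∈ D K with ¬ Dead S1 d, V d =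
            ∑ m ∈ ((D K).filter (fun d => ¬ Dead S1 d)).biUnion
              (fun d => (Icc 1 n).filter (fun m => d ∣ m ∧ ¬ Dead S m)), wt D K m :=
          (sum_biUnion (hdisj _ (filter_subset _ _))).symm
        rw [hbi, ← sum_union_inter]
        have h0 : (0:ℝ) ≤ ∑ i ∈ (((D K).filter (fun d => ¬ Dead S1 d)).biUnion
            (fun d => (Icc 1 n).filter (fun m => d ∣ m ∧ ¬ Dead S m)) ∩
            (Icc 1 n).filter (fun m => ¬ Dead S m ∧ ¬ ∃ d ∈ D K, d ∣ m)), wt D K i :=
          sum_nonneg (fun m _ => wt_nonneg D K m)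
        have h1 := sum_le_sum_of_subset_of_nonneg (f := wt D K) hsplit
          (fun m _ _ => wt_nonneg D K m)
        linarith
      have hBd : ∑ d ∈ D K with ¬ Dead S d, V d ≤
          ∑ m ∈ Icc 1 n with (¬ Dead S m ∧ ∃ d ∈ D K, d ∣ m), wt D K m := by
        have hbi : ∑ d ∈ D K with ¬ Dead S d, V d =
            ∑ m ∈ ((D K).filter (fun d => ¬ Dead S d)).biUnion
              (fun d => (Icc 1 n).filter (fun m => d ∣ m ∧ ¬ Dead S m)), wt D K m :=
          (sum_biUnion (hdisj _ (filter_subset _ _))).symm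
        rw [hbi]
        apply sum_le_sum_of_subset_of_nonneg
        · intro m hm
          rw [mem_biUnion] at hm
          obtain ⟨d, hd, hm⟩ := hm
          rw [mem_filter] at hd hm
          rw [mem_filter]
          exact ⟨hm.1, hm.2.2, d, hd.1, hm.2.1⟩
        · intro m _ _
          exact wt_nonneg D K m
      have hC : ∑ m ∈ Icc 1 n with ¬ Dead S m, wt D (K + 1) m =
          (1 / 2) * ∑ m ∈ Icc 1 n with (¬ Dead S m ∧ ∃ d ∈ D K, d ∣ m), wt D K m +
          ∑ m ∈ Icc 1 n with (¬ Dead S m ∧ ¬ ∃ d ∈ D K, d ∣ m), wt D K m := by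
        simp only [sum_filter]
        rw [mul_sum, ← sum_add_distrib]
        apply sum_congr rfl
        intro m _
        rw [wt_succ]
        by_cases hdm : Dead S m
        · simp [hdm]
        · by_cases hex : ∃ d ∈ D K, d ∣ m
          · rw [if_pos hdm, if_pos hex, if_pos ⟨hdm, hex⟩, if_neg (fun hh => hh.2 hex)]; ring
          · rw [if_pos hdm, if_neg hex, if_neg (fun hh => hex hh.2), if_pos ⟨hdm, hex⟩]; ring
      rw [hC]
      push_cast
      linarith

/-- Conclusion of the game part: a lower bound for `t` cannot exceed the static quantity. -/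
theorem game_bound {n : ℕ} {t : ℝ} {W : Finset ℕ → Prop} (h : IsWin n t W) (hW0 : W ∅)
    (D : ℕ → Finset ℕ) (B : ℕ → ℝ) (η : ℝ) (K : ℕ)
    (hn : 2 ≤ n)
    (hD : ∀ k < K, D k ⊆ Icc 2 n)
    (huniq : ∀ k < K, ∀ m ∈ Icc 1 n, ∀ d ∈ D k, ∀ d' ∈ D k, d ∣ m → d' ∣ m → d = d')
    (hB0 : ∀ k < K, 0 ≤ B k)
    (hB : ∀ k < K, ∀ d ∈ D k, (((Icc 1 n).filter (fun m => d ∣ m)).card : ℝ) ≤ B k)
    (hη : ∀ k < K, (1 + 2 * ∑ j ∈ Ioo k K, ((D j).card : ℝ)) * B k ≤ η) :
    t ≤ 1 + 2 * ∑ k ∈ range K, ((D k).card : ℝ) + ∑ m ∈ Icc 1 n, wt D K m + K * (η / 2) := by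
  classical
  by_contra hcon
  push Not at hcon
  have hwt : (0 : ℝ) ≤ ∑ m ∈ Icc 1 n, wt D K m := sum_nonneg (fun m _ => wt_nonneg D K m)
  -- Prolonger's first move
  obtain ⟨x0, hx0, hf0, hW1⟩ := h.even ∅ hW0 (by simp) ⟨2, by rw [mem_Icc]; omega, by
    intro y hy; exact absurd hy (notMem_empty y)⟩
  have hη0 : 0 ≤ K * (η / 2) := by
    rcases Nat.eq_zero_or_pos K with hK | hK
    · simp [hK]
    · have h1 := hη 0 hK
      have h2 : 0 ≤ (1 + 2 * ∑ j ∈ Ioo 0 K, ((D j).card : ℝ)) * B 0 := by
        apply mul_nonneg _ (hB0 0 hK)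
        have : (0 : ℝ) ≤ ∑ j ∈ Ioo 0 K, ((D j).card : ℝ) :=
          sum_nonneg (fun _ _ => Nat.cast_nonneg _)
        linarith
      have h3 : 0 ≤ η := h2.trans h1
      positivity
  have hc0 : (insert x0 (∅ : Finset ℕ)).card = 1 := by simp
  obtain ⟨S', hW', hS'I, hc', hal⟩ := phases h D B η K hD huniq hB0 hB (insert x0 ∅) hW1
    (by rw [hc0]; decide)
    (by intro z hz; simp at hz; rw [hz]; exact hx0)
    (by rw [hc0]; push_cast; linarith)
    (by intro k hk; rw [hc0]; push_cast; exact hη k hk)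
  have hlong := long_game h _ S' hW' le_rfl
  have h1 : (((Icc 2 n).filter (Free S')).card : ℝ) ≤
      (((Icc 1 n).filter (fun m => ¬ Dead S' m)).card : ℝ) := by
    have : ((Icc 2 n).filter (Free S')).card ≤ ((Icc 1 n).filter (fun m => ¬ Dead S' m)).card := by
      apply card_le_card
      intro z hz
      rw [mem_filter] at hz ⊢
      rw [mem_Icc] at hz ⊢
      exact ⟨by omega, ((free_iff _ _).mp hz.2).1⟩
    exact_mod_cast this
  have h2 : ∑ m ∈ Icc 1 n with ¬ Dead (insert x0 ∅) m, wt D K m ≤ ∑ m ∈ Icc 1 n, wt D K m :=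
    sum_le_sum_of_subset_of_nonneg (filter_subset _ _) (fun m _ _ => wt_nonneg D K m)
  rw [hc0] at hc'
  push_cast at hc'
  linarith

end Pool.Agent.Work.MP_c7798c_co
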