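import Pool.Agent.Work.MP_c7798c_co.Scales
import Pool.Agent.Work.MP_c7798c_co.Game

set_option autoImplicit false

namespace Pool.Agent.Work.MP_c7798c_co

open Finset

/-- The set `D` for a phase: `z`-rough numbers in `(n/z, n/w]`. -/
noncomputable def DD (n z w : ℕ) : Finset ℕ := by
  classical
  exact (Icc 2 n).filter (fun d => n < d * z ∧ d * w ≤ n ∧ ∀ p, p.Prime → p ∣ d → z < p)

lemma mem_DD {n z w d : ℕ} : d ∈ DD n z w ↔
    (2 ≤ d ∧ d ≤ n) ∧ n < d * z ∧ d * w ≤ n ∧ ∀ p, p.Prime → p ∣ d → z < p := by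
  classical
  unfold DD
  rw [mem_filter, mem_Icc]

lemma DD_sub (n z w : ℕ) : DD n z w ⊆ Icc 2 n := by
  intro d hd
  rw [mem_Icc]
  exact (mem_DD.mp hd).1

lemma DD_unique_aux {n z w m d d' : ℕ} (hm : m ∈ Icc 1 n) (hd : d ∈ DD n z w)
    (hd' : d' ∈ DD n z w) (h : d ∣ m) (h' : d' ∣ m) : d' ∣ d := by
  rw [mem_Icc] at hm
  obtain ⟨a, rfl⟩ := h
  have h1 := mem_DD.mp hd
  have h2 := mem_DD.mp hd'
  have haz : a < z := by
    have : d * a < d * z := by omega
    exact Nat.lt_of_mul_lt_mul_left this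
  have hapos : 0 < a := by
    rcases Nat.eq_zero_or_pos a with h0 | h0
    · subst h0; omega
    · exact h0
  have hcop : Nat.Coprime d' a := by
    rw [Nat.coprime_iff_gcd_eq_one]
    by_contra hne
    obtain ⟨p, hp, hpd⟩ := Nat.exists_prime_and_dvd hne
    have h3 := h2.2.2.2 p hp (hpd.trans (Nat.gcd_dvd_left _ _))
    have h4 := Nat.le_of_dvd hapos (hpd.trans (Nat.gcd_dvd_right _ _))
    omega
  exact hcop.dvd_of_dvd_mul_right h'

lemma DD_unique {n z w m d d' : ℕ} (hm : m ∈ Icc 1 n) (hd : d ∈ DD n z w)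
    (hd' : d' ∈ DD n z w) (h : d ∣ m) (h' : d' ∣ m) : d = d' :=
  Nat.dvd_antisymm (DD_unique_aux hm hd' hd h' h) (DD_unique_aux hm hd hd' h h')

lemma DD_card (n z w : ℕ) (hw : 0 < w) : ((DD n z w).card : ℝ) ≤ n / w := by
  have h1 : DD n z w ⊆ Icc 1 (n / w) := by
    intro d hd
    have h := mem_DD.mp hd
    rw [mem_Icc]
    refine ⟨by omega, ?_⟩
    rw [Nat.le_div_iff_mul_le hw]
    exact h.2.2.1
  have h2 := card_le_card h1
  rw [Nat.card_Icc, Nat.add_sub_cancel] at h2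
  calc ((DD n z w).card : ℝ) ≤ ((n / w : ℕ) : ℝ) := by exact_mod_cast h2
    _ ≤ n / w := Nat.cast_div_le

lemma DD_mult (n z w d : ℕ) (hd : d ∈ DD n z w) :
    (((Icc 1 n).filter (fun m => d ∣ m)).card : ℝ) ≤ z := by
  have h := mem_DD.mp hd
  have hIcc : Icc 1 n = Ioc 0 n := by ext; simp [mem_Icc, mem_Ioc]; omega
  rw [hIcc, Nat.Ioc_filter_dvd_card_eq_div]
  have h1 : n / d < z := by
    rw [Nat.div_lt_iff_lt_mul (by omega)]
    rw [mul_comm]; exact h.2.1
  exact_mod_cast h1.le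

/-- The key structural fact: for a non-exceptional `m` close to `n`, if the `(y, z]`-part of `m`
lies in `(w, x]`, then `m` has a divisor in the phase set. -/
lemma exists_div (n A y0 E0 y z w x m : ℕ) (hy : y0 ≤ y) (hyz : y ≤ z)
    (hL : A * ((y0.factorial) ^ E0 * Q y0 y) * x ≤ z) (hm1 : 1 ≤ m) (hmn : m ≤ n)
    (hA : n < A * m) (hbad : ¬ Bad y0 E0 m) (hnz : 2 * z ≤ n)
    (hg1 : w < Nat.gcd (Q y z) m) (hg2 : Nat.gcd (Q y z) m ≤ x) :
    ∃ d ∈ DD n z w, d ∣ m := by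
  set R0 := (y0.factorial) ^ E0 with hR0
  have hR0pos : 0 < R0 := Nat.pow_pos (Nat.factorial_pos _)
  set s := Nat.gcd (R0 * Q y0 z) m with hs
  have hspos : 0 < s := Nat.gcd_pos_of_pos_right _ (by omega)
  have hsm : s ∣ m := Nat.gcd_dvd_right _ _
  obtain ⟨d, hd⟩ := hsm
  have hdpos : 0 < d := by
    rcases Nat.eq_zero_or_pos d with h0 | h0
    · subst h0; omega
    · exact h0
  -- s = gcd (R0 * Q y0 y) m * gcd (Q y z) m
  have hcop : Nat.Coprime (R0 * Q y0 y) (Q y z) := by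
    apply Nat.Coprime.mul_left
    · apply Nat.Coprime.pow_left
      rw [Nat.coprime_iff_gcd_eq_one]
      by_contra hne
      obtain ⟨p, hp, hpd⟩ := Nat.exists_prime_and_dvd hne
      have h3 := (hp.dvd_factorial).mp (hpd.trans (Nat.gcd_dvd_left _ _))
      have h4 := (prime_dvd_Q hp).mp (hpd.trans (Nat.gcd_dvd_right _ _))
      omega
    · exact Q_coprime le_rfl
  have hsplit : s = Nat.gcd (R0 * Q y0 y) m * Nat.gcd (Q y z) m := by
    rw [hs, Nat.gcd_comm, ← Q_mul hy hyz, ← mul_assoc, Nat.Coprime.gcd_mul _ hcop,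
      Nat.gcd_comm m (R0 * Q y0 y), Nat.gcd_comm m (Q y z)]
  have hs1 : Nat.gcd (R0 * Q y0 y) m ≤ R0 * Q y0 y :=
    Nat.gcd_le_left _ (Nat.mul_pos hR0pos (Q_pos _ _))
  have hs1' : 1 ≤ Nat.gcd (R0 * Q y0 y) m := Nat.gcd_pos_of_pos_right _ (by omega)
  have hsw : w < s := by
    rw [hsplit]
    calc w < Nat.gcd (Q y z) m := hg1
      _ = 1 * Nat.gcd (Q y z) m := (one_mul _).symm
      _ ≤ _ := Nat.mul_le_mul_right _ hs1'
  have hsx : s ≤ (R0 * Q y0 y) * x := by
    rw [hsplit]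
    exact Nat.mul_le_mul hs1 hg2
  have hAs : A * s ≤ z := by
    calc A * s ≤ A * ((R0 * Q y0 y) * x) := Nat.mul_le_mul_left _ hsx
      _ = A * (R0 * Q y0 y) * x := by ring
      _ ≤ z := hL
  have hnd : n < d * z := by
    calc n < A * m := hA
      _ = (A * s) * d := by rw [hd]; ring
      _ ≤ z * d := Nat.mul_le_mul_right _ hAs
      _ = d * z := mul_comm _ _
  refine ⟨d, mem_DD.mpr ⟨⟨?_, ?_⟩, hnd, ?_, ?_⟩, ?_⟩
  · by_contra hlt
    have : d = 1 := by omega
    rw [this] at hnd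
    omega
  · calc d = 1 * d := (one_mul d).symm
      _ ≤ s * d := Nat.mul_le_mul_right _ hspos
      _ = m := hd.symm
      _ ≤ n := hmn
  · calc d * w ≤ d * s := Nat.mul_le_mul_left _ hsw.le
      _ = m := by rw [hd]; ring
      _ ≤ n := hmn
  · intro p hp hpd
    by_contra hpz
    push Not at hpz
    have hpm : p ∣ m := by rw [hd]; exact Dvd.dvd.mul_left hpd _
    have hps : p * s ∣ m := by
      rw [hd, mul_comm p s]
      exact Nat.mul_dvd_mul_left s hpd
    by_cases hpy : p ≤ y0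
    · -- show p ^ E0 ∣ m
      have hall : ∀ j, j ≤ E0 → p ^ j ∣ m := by
        intro j
        induction j with
        | zero => intro _; simp
        | succ j ih =>
          intro hj
          have h1 : p ^ j ∣ m := ih (by omega)
          have h2 : p ^ j ∣ R0 * Q y0 z := by
            apply Dvd.dvd.mul_right
            rw [hR0]
            calc p ^ j ∣ p ^ E0 := pow_dvd_pow _ (by omega)
              _ ∣ (y0.factorial) ^ E0 := pow_dvd_pow_of_dvd (hp.dvd_factorial.mpr hpy) _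
          have h3 : p ^ j ∣ s := Nat.dvd_gcd h2 h1
          calc p ^ (j + 1) = p * p ^ j := by ring
            _ ∣ p * s := Nat.mul_dvd_mul_left p h3
            _ ∣ m := hps
      exact hbad (Or.inr ⟨p, hp, hpy, hall E0 le_rfl⟩)
    · have h2 : p ∣ R0 * Q y0 z := by
        apply Dvd.dvd.mul_left
        exact (prime_dvd_Q hp).mpr ⟨by omega, hpz⟩
      have h3 : p ∣ s := Nat.dvd_gcd h2 hpm
      have h4 : p ^ 2 ∣ m := by
        calc p ^ 2 = p * p := by ring
          _ ∣ p * s := Nat.mul_dvd_mul_left p h3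
          _ ∣ m := hps
      exact hbad (Or.inl ⟨p, hp, by omega, h4⟩)
  · rw [hd]; exact dvd_mul_left _ _

end Pool.Agent.Work.MP_c7798c_co
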