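import Pool.Agent.Work.MP_c7798c_co.NT

set_option autoImplicit false

namespace Pool.Agent.Work.MP_c7798c_co

open Finset

/-- The constant density. -/
noncomputable def cst : ℝ := Real.exp (-64) / 4

lemma cst_pos : 0 < cst := by unfold cst; positivity

lemma cst_le : cst ≤ 1 := by
  unfold cst
  have : Real.exp (-64) ≤ 1 := Real.exp_le_one_iff.mpr (by norm_num)
  linarith

lemma gcd_mod_right' (T m : ℕ) : Nat.gcd T (m % T) = Nat.gcd T m := by
  rw [Nat.gcd_rec T m, Nat.gcd_comm]

lemma card_filter_eq_sum (s : Finset ℕ) (P : ℕ → Prop) [DecidablePred P] :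
    ((s.filter P).card : ℝ) = ∑ m ∈ s, (if P m then (1 : ℝ) else 0) := by
  rw [← sum_filter, sum_const, nsmul_eq_mul, mul_one]

/-- Count of residues with `gcd = 1` to a factor. -/
lemma count_coprime (R T : ℕ) (hR : 0 < R) (hT : 0 < T) (hRT : Nat.Coprime R T) :
    (((range (R * T)).filter (fun m => Nat.gcd T m = 1)).card : ℝ) = R * (T.totient : ℝ) := by
  rw [card_filter_eq_sum]
  have h := indep R T hR hT hRT (fun _ => (1 : ℝ))
    (fun m => if Nat.gcd T m = 1 then (1 : ℝ) else 0) (fun _ => rfl)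
    (fun m => by simp only [gcd_mod_right'])
  simp only [one_mul] at h
  rw [h]
  congr 1
  · simp
  · rw [← card_filter_eq_sum, Nat.totient_eq_card_coprime]

lemma scale (y w L : ℕ) : ∃ z x : ℕ, y ≤ z ∧ w ≤ z ∧ L * x ≤ z ∧
    cst * (Q y z : ℝ) ≤
      (((range (Q y z)).filter
        (fun m => w < Nat.gcd (Q y z) m ∧ Nat.gcd (Q y z) m ≤ x)).card : ℝ) := by
  set w' := max w y with hw'
  obtain ⟨z0, hz0⟩ := prod_small w' cst cst_pos
  set v := max (max 2 y) (max (max w' L) z0) with hv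
  have hv2 : 2 ≤ v := by omega
  have hvy : y ≤ v := by omega
  have hvw : w' ≤ v := by omega
  have hvL : L ≤ v := by omega
  have hvz : z0 ≤ v := by omega
  have hpow1 : v ≤ v ^ 8 := by
    calc v = v ^ 1 := (pow_one v).symm
      _ ≤ v ^ 8 := Nat.pow_le_pow_right (by omega) (by norm_num)
  have hpow2 : v ^ 8 ≤ v ^ 16 := Nat.pow_le_pow_right (by omega) (by norm_num)
  have hpow3 : v ^ 8 * v ^ 8 = v ^ 16 := by rw [← pow_add]
  refine ⟨v ^ 16, v ^ 8, by omega, by omega, ?_, ?_⟩
  · calc L * v ^ 8 ≤ v ^ 8 * v ^ 8 := Nat.mul_le_mul_right _ (by omega)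
      _ = v ^ 16 := hpow3
  · set z := v ^ 16 with hz
    set x := v ^ 8 with hx
    have hT : Q y v * Q v z = Q y z := Q_mul hvy (by omega)
    have hT2 : Q y w' * Q w' z = Q y z := Q_mul (by omega) (by omega)
    have hcop : Nat.Coprime (Q y v) (Q v z) := Q_coprime le_rfl
    have hcop2 : Nat.Coprime (Q y w') (Q w' z) := Q_coprime le_rfl
    -- lower bound for the number of m with gcd ≤ x
    have h1 : (Q y z : ℝ) * (2 * cst) ≤
        (((range (Q y z)).filter (fun m => Nat.gcd (Q y z) m ≤ x)).card : ℝ) := by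
      have hi := indep (Q y v) (Q v z) (Q_pos _ _) (Q_pos _ _) hcop
        (fun m => if Nat.gcd (Q y v) m ≤ x then (1 : ℝ) else 0)
        (fun m => if Nat.gcd (Q v z) m = 1 then (1 : ℝ) else 0)
        (fun m => by simp only [gcd_mod_right'])
        (fun m => by simp only [gcd_mod_right'])
      rw [hT] at hi
      have h2 : ∑ m ∈ range (Q y z), ((if Nat.gcd (Q y v) m ≤ x then (1 : ℝ) else 0) *
          (if Nat.gcd (Q v z) m = 1 then (1 : ℝ) else 0)) ≤
          (((range (Q y z)).filter (fun m => Nat.gcd (Q y z) m ≤ x)).card : ℝ) := by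
        rw [card_filter_eq_sum]
        apply sum_le_sum
        intro m _
        by_cases ha : Nat.gcd (Q y v) m ≤ x
        · by_cases hb : Nat.gcd (Q v z) m = 1
          · have h3 : Nat.gcd (Q y z) m ≤ x := by
              rw [← hT, Nat.gcd_comm, Nat.Coprime.gcd_mul _ hcop, Nat.gcd_comm m (Q v z), hb,
                mul_one, Nat.gcd_comm]
              exact ha
            rw [if_pos ha, if_pos hb, if_pos h3]; norm_num
          · rw [if_neg hb, mul_zero]
            split_ifs <;> norm_num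
        · rw [if_neg ha, zero_mul]
          split_ifs <;> norm_num
      refine le_trans ?_ h2
      rw [hi, ← card_filter_eq_sum, ← card_filter_eq_sum]
      have h4 : (Q y v : ℝ) / 2 ≤
          (((range (Q y v)).filter (fun m => Nat.gcd (Q y v) m ≤ x)).card : ℝ) := by
        have h5 := half_small y v hv2
        have h6 : ((range (Q y v)).filter (fun m => Nat.gcd (Q y v) m ≤ x)).card +
            ((range (Q y v)).filter (fun m => ¬ Nat.gcd (Q y v) m ≤ x)).card = Q y v := by
          rw [card_filter_add_card_filter_not, card_range]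
        have h7 : ((range (Q y v)).filter (fun m => ¬ Nat.gcd (Q y v) m ≤ x)).card =
            ((range (Q y v)).filter (fun m => v ^ 8 < Nat.gcd (Q y v) m)).card := by
          congr 1
          apply filter_congr
          intro m _
          rw [not_le]
        rw [h7] at h6
        have h8 : ((((range (Q y v)).filter (fun m => Nat.gcd (Q y v) m ≤ x)).card : ℕ) : ℝ) +
            ((((range (Q y v)).filter (fun m => v ^ 8 < Nat.gcd (Q y v) m)).card : ℕ) : ℝ) =
            (Q y v : ℝ) := by exact_mod_cast h6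
        linarith
      have h5 : (Q v z : ℝ) * Real.exp (-64) ≤
          (((range (Q v z)).filter (fun m => Nat.gcd (Q v z) m = 1)).card : ℝ) := by
        have h6 : ((range (Q v z)).filter (fun m => Nat.gcd (Q v z) m = 1)).card =
            (Q v z).totient := by
          rw [Nat.totient_eq_card_coprime]
        rw [h6, totient_Q]
        exact mul_le_mul_of_nonneg_left (prod_ge v hv2) (Nat.cast_nonneg _)
      calc (Q y z : ℝ) * (2 * cst) = ((Q y v : ℝ) / 2) * ((Q v z : ℝ) * Real.exp (-64)) := by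
            rw [← hT]; push_cast; unfold cst; ring
        _ ≤ _ := mul_le_mul h4 h5 (by positivity) (Nat.cast_nonneg _)
    -- upper bound for the number of m with gcd ≤ w'
    have h2 : (((range (Q y z)).filter (fun m => Nat.gcd (Q y z) m ≤ w')).card : ℝ) ≤
        (Q y z : ℝ) * cst := by
      have h3 : ((range (Q y z)).filter (fun m => Nat.gcd (Q y z) m ≤ w')).card ≤
          ((range (Q y w' * Q w' z)).filter (fun m => Nat.gcd (Q w' z) m = 1)).card := by
        rw [hT2]
        apply card_le_card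
        intro m hm
        rw [mem_filter] at hm ⊢
        refine ⟨hm.1, ?_⟩
        by_contra hne
        obtain ⟨p, hp, hpd⟩ := Nat.exists_prime_and_dvd hne
        have hp1 := (prime_dvd_Q hp).mp (hpd.trans (Nat.gcd_dvd_left _ _))
        have hp2 : p ∣ Nat.gcd (Q y z) m := by
          apply Nat.dvd_gcd
          · exact (prime_dvd_Q hp).mpr ⟨by omega, by omega⟩
          · exact hpd.trans (Nat.gcd_dvd_right _ _)
        have := Nat.le_of_dvd (Nat.gcd_pos_of_pos_left _ (Q_pos _ _)) hp2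
        omega
      have h4 := count_coprime (Q y w') (Q w' z) (Q_pos _ _) (Q_pos _ _) hcop2
      have h5 : (((range (Q y z)).filter (fun m => Nat.gcd (Q y z) m ≤ w')).card : ℝ) ≤
          (Q y w' : ℝ) * ((Q w' z).totient : ℝ) := by
        rw [← h4]; exact_mod_cast h3
      refine h5.trans ?_
      rw [totient_Q, ← hT2]
      push_cast
      rw [mul_assoc]
      apply mul_le_mul_of_nonneg_left _ (Nat.cast_nonneg _)
      exact mul_le_mul_of_nonneg_left (hz0 z (by omega)) (Nat.cast_nonneg _)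
    -- combine
    have h3 : ((range (Q y z)).filter (fun m => Nat.gcd (Q y z) m ≤ x)).card ≤
        ((range (Q y z)).filter (fun m => w < Nat.gcd (Q y z) m ∧ Nat.gcd (Q y z) m ≤ x)).card +
        ((range (Q y z)).filter (fun m => Nat.gcd (Q y z) m ≤ w')).card := by
      rw [← card_union_add_card_inter]
      refine le_trans (card_le_card ?_) (Nat.le_add_right _ _)
      intro m hm
      rw [mem_filter] at hm
      rw [mem_union, mem_filter, mem_filter]
      by_cases h : Nat.gcd (Q y z) m ≤ w'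
      · right; exact ⟨hm.1, h⟩
      · left; exact ⟨hm.1, by omega, hm.2⟩
    have h4 : (((range (Q y z)).filter (fun m => Nat.gcd (Q y z) m ≤ x)).card : ℝ) ≤
        (((range (Q y z)).filter
          (fun m => w < Nat.gcd (Q y z) m ∧ Nat.gcd (Q y z) m ≤ x)).card : ℝ) +
        (((range (Q y z)).filter (fun m => Nat.gcd (Q y z) m ≤ w')).card : ℝ) := by
      exact_mod_cast h3
    linarith

/-- Product of independent scale functions. -/
lemma prod_indep (z : ℕ → ℕ) (hz : ∀ k, z k ≤ z (k + 1)) (g : ℕ → ℕ → ℝ)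
    (hg : ∀ k m, g k (m % Q (z k) (z (k + 1))) = g k m) : ∀ K : ℕ,
    ∑ m ∈ range (Q (z 0) (z K)), ∏ k ∈ range K, g k m =
      ∏ k ∈ range K, ∑ m ∈ range (Q (z k) (z (k + 1))), g k m := by
  have hmono : Monotone z := monotone_nat_of_le_succ hz
  intro K
  induction K with
  | zero =>
    have : Q (z 0) (z 0) = 1 := by
      unfold Q PP
      simp
    rw [this]
    simp
  | succ K ih =>
    rw [prod_range_succ, ← ih]
    have hQ : Q (z 0) (z K) * Q (z K) (z (K + 1)) = Q (z 0) (z (K + 1)) :=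
      Q_mul (hmono (Nat.zero_le _)) (hz K)
    rw [← hQ]
    rw [← indep (Q (z 0) (z K)) (Q (z K) (z (K + 1))) (Q_pos _ _) (Q_pos _ _)
      (Q_coprime le_rfl) (fun m => ∏ k ∈ range K, g k m) (g K) ?_ (hg K)]
    · apply sum_congr rfl
      intro m _
      rw [prod_range_succ]
    · intro m
      apply prod_congr rfl
      intro k hk
      rw [mem_range] at hk
      have hd : Q (z k) (z (k + 1)) ∣ Q (z 0) (z K) := by
        have h1 : Q (z 0) (z k) * Q (z k) (z (k + 1)) = Q (z 0) (z (k + 1)) :=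
          Q_mul (hmono (Nat.zero_le _)) (hz k)
        have h2 : Q (z 0) (z (k + 1)) * Q (z (k + 1)) (z K) = Q (z 0) (z K) :=
          Q_mul (hmono (Nat.zero_le _)) (hmono hk)
        rw [← h2, ← h1]
        exact Dvd.dvd.mul_right (dvd_mul_left _ _) _
      rw [← hg k (m % Q (z 0) (z K)), Nat.mod_mod_of_dvd _ hd, hg k m]

/-- The exceptional integers. -/
def Bad (y0 E0 m : ℕ) : Prop :=
  (∃ p, p.Prime ∧ y0 < p ∧ p ^ 2 ∣ m) ∨ (∃ p, p.Prime ∧ p ≤ y0 ∧ p ^ E0 ∣ m)

open Classical in
lemma bad_count (y0 E0 n : ℕ) (hy0 : 0 < y0) :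
    (((Icc 1 n).filter (fun m => Bad y0 E0 m)).card : ℝ) ≤
      n * (1 / (y0 : ℝ) + y0 / 2 ^ E0) := by
  have hIcc : ∀ d : ℕ, ((Icc 1 n).filter (fun m => d ∣ m)).card = n / d := by
    intro d
    have : Icc 1 n = Ioc 0 n := by ext; simp [mem_Icc, mem_Ioc]; omega
    rw [this, Nat.Ioc_filter_dvd_card_eq_div]
  have hsub : (Icc 1 n).filter (fun m => Bad y0 E0 m) ⊆
      (Ioc y0 n).biUnion (fun p => (Icc 1 n).filter (fun m => p ^ 2 ∣ m)) ∪
      (Icc 2 y0).biUnion (fun p => (Icc 1 n).filter (fun m => p ^ E0 ∣ m)) := by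
    intro m hm
    rw [mem_filter, mem_Icc] at hm
    rw [mem_union, mem_biUnion, mem_biUnion]
    rcases hm.2 with ⟨p, hp, hp1, hp2⟩ | ⟨p, hp, hp1, hp2⟩
    · left
      refine ⟨p, ?_, ?_⟩
      · rw [mem_Ioc]
        refine ⟨hp1, ?_⟩
        have h1 := Nat.le_of_dvd (by omega) hp2
        have h2 : p ≤ p ^ 2 := Nat.le_self_pow (by norm_num) p
        omega
      · rw [mem_filter, mem_Icc]; exact ⟨hm.1, hp2⟩
    · right
      refine ⟨p, ?_, ?_⟩
      · rw [mem_Icc]; exact ⟨hp.two_le, hp1⟩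
      · rw [mem_filter, mem_Icc]; exact ⟨hm.1, hp2⟩
  have h1 : ((Icc 1 n).filter (fun m => Bad y0 E0 m)).card ≤
      ∑ p ∈ Ioc y0 n, n / p ^ 2 + ∑ p ∈ Icc 2 y0, n / p ^ E0 := by
    refine (card_le_card hsub).trans ((card_union_le _ _).trans ?_)
    apply add_le_add
    · refine card_biUnion_le.trans (le_of_eq ?_)
      exact sum_congr rfl (fun p _ => hIcc _)
    · refine card_biUnion_le.trans (le_of_eq ?_)
      exact sum_congr rfl (fun p _ => hIcc _)
  have h2 : (((Icc 1 n).filter (fun m => Bad y0 E0 m)).card : ℝ) ≤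
      ∑ p ∈ Ioc y0 n, ((n / p ^ 2 : ℕ) : ℝ) + ∑ p ∈ Icc 2 y0, ((n / p ^ E0 : ℕ) : ℝ) := by
    exact_mod_cast h1
  refine h2.trans ?_
  have hn0 : (0 : ℝ) ≤ n := Nat.cast_nonneg n
  have hy0' : (0 : ℝ) < y0 := by exact_mod_cast hy0
  have h3 : ∑ p ∈ Ioc y0 n, ((n / p ^ 2 : ℕ) : ℝ) ≤ n * (1 / (y0 : ℝ)) := by
    calc ∑ p ∈ Ioc y0 n, ((n / p ^ 2 : ℕ) : ℝ) ≤ ∑ p ∈ Ioc y0 n, (n : ℝ) * ((p : ℝ) ^ 2)⁻¹ := by
          apply sum_le_sum
          intro p _
          refine Nat.cast_div_le.trans (le_of_eq ?_)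
          push_cast
          rw [div_eq_mul_inv]
      _ = n * ∑ p ∈ Ioc y0 n, ((p : ℝ) ^ 2)⁻¹ := by rw [mul_sum]
      _ ≤ n * (1 / (y0 : ℝ)) := by
          apply mul_le_mul_of_nonneg_left _ hn0
          by_cases hyn : y0 ≤ n
          · have := sum_Ioc_inv_sq_le_sub (α := ℝ) (k := y0) (n := n) (by omega) hyn
            have h4 : (0 : ℝ) ≤ ((n : ℝ))⁻¹ := by positivity
            rw [one_div]
            linarith
          · rw [Ioc_eq_empty (by omega), sum_empty]
            positivity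
  have h4 : ∑ p ∈ Icc 2 y0, ((n / p ^ E0 : ℕ) : ℝ) ≤ n * ((y0 : ℝ) / 2 ^ E0) := by
    calc ∑ p ∈ Icc 2 y0, ((n / p ^ E0 : ℕ) : ℝ) ≤ ∑ p ∈ Icc 2 y0, (n : ℝ) / 2 ^ E0 := by
          apply sum_le_sum
          intro p hp
          rw [mem_Icc] at hp
          refine Nat.cast_div_le.trans ?_
          push_cast
          apply div_le_div_of_nonneg_left hn0 (by positivity)
          apply pow_le_pow_left₀ (by norm_num)
          exact_mod_cast hp.1
      _ = ((Icc 2 y0).card : ℝ) * ((n : ℝ) / 2 ^ E0) := by rw [sum_const, nsmul_eq_mul]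
      _ ≤ (y0 : ℝ) * ((n : ℝ) / 2 ^ E0) := by
          apply mul_le_mul_of_nonneg_right _ (by positivity)
          have : (Icc 2 y0).card ≤ y0 := by rw [Nat.card_Icc]; omega
          exact_mod_cast this
      _ = n * ((y0 : ℝ) / 2 ^ E0) := by ring
  linarith

end Pool.Agent.Work.MP_c7798c_co
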